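import Pool.Agent.T9h54.MX.Cnt

/-!
# Category
-/

set_option autoImplicit false

open Filter Topology Finset

namespace Pool.Agent.T9h54.MX

open Pool.Agent.Y821.ME

/-- local unboundedness gives unboundedness at generic points -/
theorem residual_unb (f : ℕ → ℝ → ℝ) (hc : ∀ R, Continuous (f R)) (hb : ∀ R, ∃ B, ∀ x, f R x ≤ B)
    (hd : ∀ K : ℝ, ∀ U : Set ℝ, IsOpen U → U.Nonempty → ∃ x ∈ U, ∃ᶠ R : ℕ in atTop, K * Real.sqrt R < f R x) :
    {x | Unb f x} ∈ residual ℝ := by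
  choose B hB using hb
  have h1 : ∀ K : ℕ, {x | ∃ R : ℕ, 1 ≤ R ∧ (K : ℝ) * Real.sqrt R < f R x} ∈ residual ℝ := by
    intro K
    refine residual_of_dense_open ?_ ?_
    · have : {x | ∃ R : ℕ, 1 ≤ R ∧ (K : ℝ) * Real.sqrt R < f R x} =
          ⋃ R : ℕ, ⋃ _ : 1 ≤ R, {x | (K : ℝ) * Real.sqrt R < f R x} := by
        ext x
        simp
      rw [this]
      exact isOpen_iUnion fun R => isOpen_iUnion fun _ => isOpen_lt continuous_const (hc R)
    · rw [dense_iff_inter_open]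
      intro U hU hne
      obtain ⟨x, hx, hR⟩ := hd K U hU hne
      obtain ⟨R, hR1, hR2⟩ := (hR.and_eventually (eventually_ge_atTop 1)).exists
      exact ⟨x, hx, R, hR2, hR1⟩
  have h2 : (⋂ K : ℕ, {x | ∃ R : ℕ, 1 ≤ R ∧ (K : ℝ) * Real.sqrt R < f R x}) ∈ residual ℝ :=
    countable_iInter_mem.mpr h1
  filter_upwards [h2] with x hx
  intro K
  by_contra h
  rw [Filter.not_frequently, eventually_atTop] at h
  obtain ⟨N, hN⟩ := h
  obtain ⟨K', hK'⟩ := exists_nat_ge (max K (∑ R ∈ range N, |B R|))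
  rw [Set.mem_iInter] at hx
  obtain ⟨R, hR1, hR2⟩ := hx K'
  have hs : (1 : ℝ) ≤ Real.sqrt R := by
    rw [Real.one_le_sqrt]
    exact_mod_cast hR1
  have hK1 : K ≤ K' := (le_max_left _ _).trans hK'
  have hK2 : ∑ R ∈ range N, |B R| ≤ K' := (le_max_right _ _).trans hK'
  rcases le_or_gt N R with h3 | h3
  · have h4 := not_lt.mp (hN R h3)
    have h5 : K * Real.sqrt R ≤ K' * Real.sqrt R := mul_le_mul_of_nonneg_right hK1 (by linarith)
    linarith
  · have h4 : |B R| ≤ ∑ R ∈ range N, |B R| :=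
      Finset.single_le_sum (f := fun R => |B R|) (fun i _ => abs_nonneg (B i)) (Finset.mem_range.mpr h3)
    have h5 : f R x ≤ |B R| := (hB R x).trans (le_abs_self _)
    have h6 : (K' : ℝ) * 1 ≤ K' * Real.sqrt R := mul_le_mul_of_nonneg_left hs (Nat.cast_nonneg _)
    linarith

/-- a set whose complement is meagre is not countable -/
theorem not_countable_of_residual (s : Set ℝ) (hs : s ∈ residual ℝ) : ¬ s.Countable := by
  intro h
  have h1 : sᶜ ∈ residual ℝ := by
    have h2 : sᶜ = ⋂ x ∈ s, {x}ᶜ := by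
      ext y
      simp only [Set.mem_compl_iff, Set.mem_iInter, Set.mem_singleton_iff]
      exact ⟨fun h i hi e => h (e ▸ hi), fun h hy => h y hy rfl⟩
    rw [h2]
    rw [countable_bInter_mem h]
    intro x _
    exact residual_of_dense_open isOpen_compl_singleton (dense_compl_singleton x)
  have h3 : s ∩ sᶜ ∈ residual ℝ := inter_mem hs h1
  rw [Set.inter_compl_self] at h3
  have h4 := dense_of_mem_residual h3
  exact h4.nonempty.ne_empty rfl

theorem norm_F_add (R : ℕ) (x y : ℝ) (h : ∃ k : ℤ, x + k = y) : ‖F R x‖ = ‖F R y‖ := by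
  obtain ⟨k, rfl⟩ := h
  rw [F_add_int]

end Pool.Agent.T9h54.MX
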