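import Pool.Agent.T9h54.MX.Main

/-!
# From units to fractions
-/

set_option autoImplicit false

open Filter Topology Finset

namespace Pool.Agent.T9h54.MX

open Pool.Agent.Y821.ME

theorem F_add_int (R : ℕ) (x : ℝ) (k : ℤ) : F R (x + k) = F R x := by
  unfold F
  apply Finset.sum_congr rfl
  intro n _
  congr 1
  have h : (2 * Real.pi * Complex.I * n * ((x + k : ℝ) : ℂ) : ℂ) =
      2 * Real.pi * Complex.I * n * x + ((n * k : ℤ) : ℂ) * (2 * Real.pi * Complex.I) := by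
    push_cast
    ring
  rw [h, Complex.exp_add, Complex.exp_int_mul_two_pi_mul_I, mul_one]

theorem continuous_F (R : ℕ) : Continuous (F R) := by
  unfold F
  refine continuous_finsetSum _ fun n _ => continuous_const.mul ?_
  fun_prop

/-- square roots in the units modulo `p ^ (2l)` -/
theorem dich1 (p l : ℕ) [NeZero (p ^ (2 * l))] (hp : p.Prime) (hp2 : p ≠ 2) (hl : 1 ≤ l)
    (x z : (ZMod (p ^ (2 * l)))ˣ) (h : (x : ZMod (p ^ (2 * l))) ^ 2 = (z : ZMod (p ^ (2 * l))) ^ 2) :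
    x = z ∨ x = -z := by
  have : Fact p.Prime := ⟨hp⟩
  have h0 : ((x : ZMod (p ^ (2 * l))) - z) * ((x : ZMod (p ^ (2 * l))) + z) = 0 := by
    linear_combination h
  by_cases h1 : redK p l hl ((x : ZMod (p ^ (2 * l))) - z) = 0
  · left
    have h2 : redK p l hl ((x : ZMod (p ^ (2 * l))) + z) ≠ 0 := by
      intro h3
      have h4 : (2 : ZMod p) * redK p l hl (z : ZMod (p ^ (2 * l))) = 0 := by
        rw [map_sub] at h1
        rw [map_add] at h3
        linear_combination h3 - h1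
      rcases mul_eq_zero.mp h4 with h5 | h5
      · exact two_ne hp hp2 h5
      · exact ((z.isUnit.map (redK p l hl)).ne_zero) h5
    obtain ⟨u, hu⟩ := isUnit_of_red hp hl _ h2
    rw [← hu] at h0
    have h3 := (Units.mul_left_eq_zero u).mp h0
    exact Units.ext (sub_eq_zero.mp h3)
  · right
    obtain ⟨u, hu⟩ := isUnit_of_red hp hl _ h1
    rw [← hu] at h0
    have h3 := (Units.mul_right_eq_zero u).mp h0
    refine Units.ext ?_
    rw [Units.val_neg]
    exact eq_neg_of_add_eq_zero_left h3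

theorem card_sq_image (p l : ℕ) [NeZero (p ^ (2 * l))] (hp : p.Prime) (hp2 : p ≠ 2) (hl : 1 ≤ l)
    (E : Finset (ZMod (p ^ (2 * l)))ˣ) :
    E.card ≤ 2 * (E.image fun b : (ZMod (p ^ (2 * l)))ˣ => ((b : ZMod (p ^ (2 * l))) ^ 2).val).card := by
  classical
  refine Finset.card_le_mul_card_image E 2 fun a ha => ?_
  obtain ⟨z, hz, rfl⟩ := Finset.mem_image.mp ha
  have h1 : (E.filter fun b : (ZMod (p ^ (2 * l)))ˣ =>
      ((b : ZMod (p ^ (2 * l))) ^ 2).val = ((z : ZMod (p ^ (2 * l))) ^ 2).val) ⊆ {z, -z} := by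
    intro b hb
    rw [Finset.mem_filter] at hb
    have h2 := ZMod.val_injective _ hb.2
    rw [Finset.mem_insert, Finset.mem_singleton]
    exact dich1 p l hp hp2 hl b z h2
  exact (Finset.card_le_card h1).trans Finset.card_le_two

/-- unboundedness of `f_R(x) / √R` -/
def Unb (f : ℕ → ℝ → ℝ) (x : ℝ) : Prop := ∀ K : ℝ, ∃ᶠ R : ℕ in atTop, K * Real.sqrt R < f R x

theorem cop_neg (p k : ℕ) [NeZero (p ^ k)] (a : ZMod (p ^ k)) (n : ℕ) :
    cop p k (-a) n = (starRingEnd ℂ) (cop p k a n) := by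
  unfold cop
  split_ifs
  · rw [map_zero]
  · unfold ee
    rw [neg_mul, AddChar.map_neg_eq_conj]

theorem Mx_cop_neg (p k : ℕ) [NeZero (p ^ k)] (a : ZMod (p ^ k)) (v : ℝ) :
    Mx (cop p k (-a)) v = (starRingEnd ℂ) (Mx (cop p k a) v) := by
  unfold Mx
  rw [map_sum]
  refine Finset.sum_congr rfl fun n _ => ?_
  rw [map_mul, cop_neg]
  congr 1
  unfold mu
  exact (map_intCast (starRingEnd ℂ) _).symm

/-- a bound for the cosine sums from bounds at the fractions `a / q + j / p` -/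
theorem cR_good (p l : ℕ) [NeZero (p ^ (2 * l))] (hp : p.Prime) (hp2 : p ≠ 2) (hl : 1 ≤ l) {C : ℝ} (hC : 0 ≤ C)
    (a : (ZMod (p ^ (2 * l)))ˣ)
    (h : ∀ j ∈ range p, ∀ᶠ R : ℕ in atTop,
      ‖F R (((a : ZMod (p ^ (2 * l))).val : ℝ) / (p : ℝ) ^ (2 * l) + j / p)‖ ≤ C * Real.sqrt R) :
    ∃ v₀ : ℝ, ∀ v, v₀ ≤ v → ‖Mx (cR (p ^ (2 * l)) a) v‖ ≤ 2 * C * Real.sqrt v := by
  have h1 : ∀ᶠ R : ℕ in atTop, ∀ j ∈ range p,
      ‖F R (((a : ZMod (p ^ (2 * l))).val : ℝ) / (p : ℝ) ^ (2 * l) + j / p)‖ ≤ C * Real.sqrt R := by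
    rw [eventually_all_finset]
    exact h
  obtain ⟨N, hN⟩ := eventually_atTop.mp h1
  refine ⟨N, fun v hv => ?_⟩
  have hv0 : 0 ≤ v := (Nat.cast_nonneg N).trans hv
  have h2 := hN ⌊v⌋₊ (Nat.le_floor hv)
  have h3 : ‖Mx (cop p (2 * l) (a : ZMod (p ^ (2 * l)))) v‖ ≤ 2 * (C * Real.sqrt v) := by
    refine Mx_cop_le hp (by omega) _ v _ ?_ ?_
    · have h4 := h2 0 (Finset.mem_range.mpr hp.pos)
      refine le_trans (le_of_eq ?_) (h4.trans (floor_bound hC hv0))
      congr 2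
      push_cast
      ring
    · intro j hj
      have h4 := h2 j hj
      refine le_trans (le_of_eq ?_) (h4.trans (floor_bound hC hv0))
      congr 2
      push_cast
      ring
  rw [Mx_cR ch hp hp2 hl, Mx_cop_neg, norm_div, Complex.norm_ofNat]
  have h4 := norm_add_le (Mx (cop p (2 * l) (a : ZMod (p ^ (2 * l)))) v)
    ((starRingEnd ℂ) (Mx (cop p (2 * l) (a : ZMod (p ^ (2 * l)))) v))
  rw [Complex.norm_conj] at h4
  linarith

/-- if no fraction with denominator `q` is bad then the hypothesis holds with one constant -/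
theorem hypQ_of (p k : ℕ) (hp : p.Prime) (hk : 1 ≤ k)
    (h : ∀ a : ℕ, a.Coprime p → ¬ Unb (fun R x => ‖F R x‖) ((a : ℝ) / (p : ℝ) ^ k)) :
    ∃ C₀ : ℝ, 0 ≤ C₀ ∧ Two.HypQ C₀ p k := by
  classical
  have hex : ∀ a : ℕ, ∃ K : ℝ, 0 ≤ K ∧ (a.Coprime p → ∀ᶠ R : ℕ in atTop,
      ‖F R ((a : ℝ) / (p : ℝ) ^ k)‖ ≤ K * Real.sqrt R) := by
    intro a
    by_cases ha : a.Coprime p
    · have h1 := h a ha
      unfold Unb at h1
      push Not at h1
      obtain ⟨K, hK⟩ := h1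
      refine ⟨max K 0, le_max_right _ _, fun _ => ?_⟩
      filter_upwards [hK] with R hR
      exact hR.trans (mul_le_mul_of_nonneg_right (le_max_left _ _) (Real.sqrt_nonneg _))
    · exact ⟨0, le_rfl, fun h' => absurd h' ha⟩
  choose K hK0 hK using hex
  refine ⟨∑ a ∈ range (p ^ k), K a, Finset.sum_nonneg fun a _ => hK0 a, fun a ha => ?_⟩
  have hpk : 0 < p ^ k := pow_pos hp.pos _
  have hcop : (a % p ^ k).Coprime p := by
    rw [Nat.coprime_comm, hp.coprime_iff_not_dvd]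
    intro h1
    exact ha ((Nat.dvd_mod_iff (dvd_pow_self p (by omega))).mp h1)
  filter_upwards [hK (a % p ^ k) hcop] with R hR
  obtain ⟨t, ht⟩ : ∃ t : ℕ, t = a / p ^ k := ⟨_, rfl⟩
  have e : (((a / (p ^ k : ℕ) : ℚ)) : ℝ) =
      ((a % p ^ k : ℕ) : ℝ) / (p : ℝ) ^ k + ((t : ℕ) : ℤ) := by
    have hd := Nat.mod_add_div a (p ^ k)
    rw [← ht] at hd
    have hd' : (((a % p ^ k : ℕ) : ℝ)) + (p : ℝ) ^ k * (t : ℝ) = a := by
      exact_mod_cast hd
    have hp0 : ((p : ℝ) ^ k) ≠ 0 := by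
      have : (0 : ℝ) < p := by exact_mod_cast hp.pos
      positivity
    push_cast
    push_cast at hd'
    rw [← hd']
    field_simp
  rw [e, F_add_int]
  refine hR.trans (mul_le_mul_of_nonneg_right ?_ (Real.sqrt_nonneg _))
  exact Finset.single_le_sum (fun a _ => hK0 a) (Finset.mem_range.mpr (Nat.mod_lt _ hpk))

end Pool.Agent.T9h54.MX
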