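import Pool.Agent.T9h54.MX.Bai

/-!
# The statements for fractions with denominator `p ^ (2l)`
-/

set_option autoImplicit false

open Filter Topology Finset

namespace Pool.Agent.T9h54.MX

open Pool.Agent.Y821.ME

/-- the local theorem, for the fractions: either some reduced fraction with denominator `p ^ (2l)` is
unbounded, or a positive proportion of the fractions in every arc is bad -/
theorem local_frac (p : ℕ) (hp : p.Prime) (hp2 : p ≠ 2) (C : ℝ) (U : Set ℝ) (hU : IsOpen U) (hne : U.Nonempty) :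
    ∃ κ : ℝ, 0 < κ ∧ ∃ l₀ : ℕ, ∀ l : ℕ, l₀ ≤ l →
      (∃ a : ℕ, a.Coprime p ∧ Unb (fun R x => ‖F R x‖) ((a : ℝ) / (p : ℝ) ^ (2 * l))) ∨
      κ * (p : ℝ) ^ (2 * l) ≤ (Set.ncard {a : ℕ | a < p ^ (2 * l) ∧ a.Coprime p ∧
        (∃ n : ℤ, (a : ℝ) / (p : ℝ) ^ (2 * l) + n ∈ U) ∧
        ∃ j < p, ∃ᶠ R : ℕ in atTop, C * Real.sqrt R < ‖F R ((a : ℝ) / (p : ℝ) ^ (2 * l) + j / p)‖} : ℝ) := by
  classical
  have hfact : Fact p.Prime := ⟨hp⟩
  obtain ⟨x₀, hx₀⟩ := hne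
  obtain ⟨δ', hδ', hball⟩ := Metric.isOpen_iff.mp hU x₀ hx₀
  set δ : ℝ := min δ' (1 / 2) with hδdef
  have hδ : 0 < δ := lt_min hδ' (by norm_num)
  obtain ⟨κ, hκ, l₀, hl₀, hmain⟩ := main_loc p hp2 (max C 0) x₀ δ (le_max_right _ _) hδ (min_le_right _ _)
  refine ⟨κ / 2, by positivity, l₀, fun l hl => ?_⟩
  by_cases hbad : ∃ a : ℕ, a.Coprime p ∧ Unb (fun R x => ‖F R x‖) ((a : ℝ) / (p : ℝ) ^ (2 * l))
  · exact Or.inl hbad
  right
  push Not at hbad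
  have hl1 : 1 ≤ l := hl₀.trans hl
  obtain ⟨C₀, hC₀, hQ⟩ := hypQ_of p (2 * l) hp (by omega) hbad
  set A : Set ℕ := {a : ℕ | a < p ^ (2 * l) ∧ a.Coprime p ∧
        (∃ n : ℤ, (a : ℝ) / (p : ℝ) ^ (2 * l) + n ∈ U) ∧
        ∃ j < p, ∃ᶠ R : ℕ in atTop, C * Real.sqrt R < ‖F R ((a : ℝ) / (p : ℝ) ^ (2 * l) + j / p)‖} with hA
  have hAfin : A.Finite := (Set.finite_Iio (p ^ (2 * l))).subset fun a ha => ha.1
  set E : Finset (ZMod (p ^ (2 * l)))ˣ := univ.filter fun b : (ZMod (p ^ (2 * l)))ˣ =>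
    ((b : ZMod (p ^ (2 * l))) ^ 2).val ∈ A with hE
  have hEA : E.card ≤ 2 * A.ncard := by
    refine (card_sq_image p l hp hp2 hl1 E).trans (Nat.mul_le_mul_left 2 ?_)
    rw [← Set.ncard_coe_finset]
    refine Set.ncard_le_ncard ?_ hAfin
    intro a ha
    rw [Finset.mem_coe, Finset.mem_image] at ha
    obtain ⟨b, hb, rfl⟩ := ha
    rw [hE, Finset.mem_filter] at hb
    exact hb.2
  by_contra hcon
  rw [not_le] at hcon
  have hEκ : (E.card : ℝ) ≤ κ * (p : ℝ) ^ (2 * l) := by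
    have h1 : (E.card : ℝ) ≤ 2 * (A.ncard : ℝ) := by exact_mod_cast hEA
    linarith
  obtain ⟨b, hbE, ⟨n, hn⟩, hb⟩ := hmain l hl C₀ hC₀ hQ E hEκ
  apply hbE
  rw [hE, Finset.mem_filter]
  refine ⟨Finset.mem_univ _, ZMod.val_lt _, ?_, ⟨-n, ?_⟩, ?_⟩
  · have h1 := Two.not_dvd_val hp (by omega : 1 ≤ 2 * l) ((b : ZMod (p ^ (2 * l))) ^ 2) (b.isUnit.pow 2)
    rw [Nat.coprime_comm, hp.coprime_iff_not_dvd]
    exact h1
  · apply hball
    rw [Metric.mem_ball, Real.dist_eq]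
    unfold yb at hn
    push_cast at hn ⊢
    have h2 : (((b : ZMod (p ^ (2 * l))) ^ 2).val : ℝ) / (p : ℝ) ^ (2 * l) + -(n : ℝ) - x₀ =
        (((b : ZMod (p ^ (2 * l))) ^ 2).val : ℝ) / (p : ℝ) ^ (2 * l) - x₀ - n := by ring
    rw [h2]
    exact hn.trans_le (min_le_left _ _)
  · by_contra hcon2
    push Not at hcon2
    apply hb
    refine cR_good p l hp hp2 hl1 (le_max_right _ _) (b ^ 2) fun j hj => ?_
    filter_upwards [hcon2 j (Finset.mem_range.mp hj)] with R hR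
    have h3 : ((b ^ 2 : (ZMod (p ^ (2 * l)))ˣ) : ZMod (p ^ (2 * l))) = (b : ZMod (p ^ (2 * l))) ^ 2 :=
      Units.val_pow_eq_pow_val b 2
    rw [h3]
    exact hR.trans (mul_le_mul_of_nonneg_right (le_max_left _ _) (Real.sqrt_nonneg _))

end Pool.Agent.T9h54.MX
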