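import Pool.Agent.T9h54.MX.Rzx

/-!
# Localised Riesz products: the localisation
-/

set_option autoImplicit false

open Filter Topology Finset

namespace Pool.Agent.T9h54.MX

open Pool.Agent.Y821.ME

/-- distance less than `δ` to an integer -/
def Near (δ y : ℝ) : Prop := ∃ n : ℤ, |y - n| < δ

theorem cos_sq_le {δ y : ℝ} (hδ : 0 < δ) (h : ¬ Near δ y) : Real.cos (Real.pi * y) ^ 2 ≤ 1 - 4 * δ ^ 2 := by
  have h1 : δ ≤ |y - round y| := by
    by_contra hcon
    exact h ⟨round y, not_le.mp hcon⟩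
  have h2 : |y - round y| ≤ 1 / 2 := abs_sub_round y
  set z := y - round y with hz
  have h3 : Real.cos (Real.pi * y) ^ 2 = Real.cos (Real.pi * z) ^ 2 := by
    have : Real.pi * y = Real.pi * z + (round y : ℤ) * Real.pi := by rw [hz]; ring
    rw [this, Real.cos_add_int_mul_pi, mul_pow]
    rcases Int.even_or_odd (round y) with he | ho
    · rw [he.neg_one_zpow]; ring
    · rw [ho.neg_one_zpow]; ring
  have h4 : 2 * |z| ≤ |Real.sin (Real.pi * z)| := by
    have h5 := Real.mul_le_sin (x := Real.pi * |z|) (by positivity) (by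
      nlinarith [Real.pi_pos])
    have h6 : 2 / Real.pi * (Real.pi * |z|) = 2 * |z| := by
      have := Real.pi_pos.ne'
      field_simp
    rw [h6] at h5
    have h7 : Real.sin (Real.pi * |z|) ≤ |Real.sin (Real.pi * z)| := by
      rcases abs_cases z with ⟨h8, _⟩ | ⟨h8, _⟩
      · rw [h8]; exact le_abs_self _
      · rw [h8, mul_neg, Real.sin_neg]; exact neg_le_abs _
    exact h5.trans h7
  have h8 : 4 * δ ^ 2 ≤ Real.sin (Real.pi * z) ^ 2 := by
    rw [← sq_abs (Real.sin (Real.pi * z))]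
    have h9 : 2 * δ ≤ |Real.sin (Real.pi * z)| := by linarith
    nlinarith
  have h10 := Real.sin_sq_add_cos_sq (Real.pi * z)
  rw [h3]
  linarith

theorem cos_pow_eq (K : ℕ) (y : ℝ) : ((Real.cos (Real.pi * y) ^ (2 * K) : ℝ) : ℂ) =
    ∑ m ∈ range (2 * K + 1), ((Nat.choose (2 * K) m : ℕ) : ℂ) / 4 ^ K *
      Complex.exp (2 * Real.pi * Complex.I * (((m : ℤ) - K : ℤ) : ℂ) * y) := by
  have h1 : ((Real.cos (Real.pi * y) : ℝ) : ℂ) =
      (Complex.exp (Real.pi * y * Complex.I) + Complex.exp (-(Real.pi * y * Complex.I))) / 2 := by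
    rw [Complex.ofReal_cos, Complex.cos]
    push_cast
    congr 2
    ring_nf
  rw [Complex.ofReal_pow, h1, div_pow, add_pow, Finset.sum_div]
  refine Finset.sum_congr rfl fun m hm => ?_
  have hm' : m ≤ 2 * K := by
    have := Finset.mem_range.mp hm
    omega
  have h2 : (2 : ℂ) ^ (2 * K) = 4 ^ K := by rw [pow_mul]; norm_num
  rw [h2, ← Complex.exp_nat_mul, ← Complex.exp_nat_mul, ← Complex.exp_add]
  have h3 : ((m : ℕ) : ℂ) * (Real.pi * y * Complex.I) + ((2 * K - m : ℕ) : ℂ) * -(Real.pi * y * Complex.I) =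
      2 * Real.pi * Complex.I * (((m : ℤ) - K : ℤ) : ℂ) * y := by
    rw [Nat.cast_sub hm']
    push_cast
    ring
  rw [h3]
  ring

theorem exp_ee (q : ℕ) [NeZero q] (k : ℤ) (a : ZMod q) (x₀ : ℝ) :
    Complex.exp (2 * Real.pi * Complex.I * (k : ℂ) * (((a.val : ℝ) / q - x₀ : ℝ) : ℂ)) =
      Complex.exp (-(2 * Real.pi * k * x₀ : ℝ) * Complex.I) * ee q (k * a) := by
  have h1 : (k : ZMod q) * a = ((k * (a.val : ℤ) : ℤ) : ZMod q) := by
    push_cast
    rw [ZMod.natCast_val, ZMod.cast_id', id]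
  unfold ee
  rw [h1, ZMod.stdAddChar_coe, ← Complex.exp_add]
  congr 1
  push_cast
  ring

/-- the point `b² / q - x₀` -/
noncomputable def yb (q : ℕ) [NeZero q] (x₀ : ℝ) (b : (ZMod q)ˣ) : ℝ := (((b : ZMod q) ^ 2).val : ℝ) / q - x₀

/-- the localising factor -/
noncomputable def Wt (q : ℕ) [NeZero q] (K : ℕ) (x₀ : ℝ) (b : (ZMod q)ˣ) : ℝ :=
  Real.cos (Real.pi * yb q x₀ b) ^ (2 * K)

theorem loc_sum (q m : ℕ) [NeZero q] (hq : m * m = q) (R : ℤ → ZMod q) (ν : ℤ → ℂ) (hν : ∀ j, ‖ν j‖ ≤ 1)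
    (S : Finset ℤ) (K : ℕ) (x₀ : ℝ) (x : ZMod q) :
    ‖∑ b : (ZMod q)ˣ, (∏ j ∈ S, RZ2.fac q R ν (b : ZMod q) j) * ((Wt q K x₀ b : ℂ) * ee q (x * b)) -
      ((Nat.centralBinom K : ℕ) : ℂ) / 4 ^ K *
        ∑ b : (ZMod q)ˣ, (∏ j ∈ S, RZ2.fac q R ν (b : ZMod q) j) * ee q (x * b)‖ ≤
      2 ^ S.card * (2 * K * m) := by
  classical
  set A : ℕ → ℂ := fun n => ((Nat.choose (2 * K) n : ℕ) : ℂ) / 4 ^ K *
    (Complex.exp (-(2 * Real.pi * ((n : ℤ) - K : ℤ) * x₀ : ℝ) * Complex.I) *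
    ∑ b : (ZMod q)ˣ, (∏ j ∈ S, RZ2.fac q R ν (b : ZMod q) j) *
      (ee q ((((n : ℤ) - K : ℤ) : ZMod q) * (b : ZMod q) ^ 2) * ee q (x * b))) with hA
  have h1 : ∑ b : (ZMod q)ˣ, (∏ j ∈ S, RZ2.fac q R ν (b : ZMod q) j) * ((Wt q K x₀ b : ℂ) * ee q (x * b)) =
      ∑ n ∈ range (2 * K + 1), A n := by
    have h2 : ∀ b : (ZMod q)ˣ, (Wt q K x₀ b : ℂ) = ∑ n ∈ range (2 * K + 1), ((Nat.choose (2 * K) n : ℕ) : ℂ) / 4 ^ K *
        (Complex.exp (-(2 * Real.pi * ((n : ℤ) - K : ℤ) * x₀ : ℝ) * Complex.I) *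
          ee q ((((n : ℤ) - K : ℤ) : ZMod q) * (b : ZMod q) ^ 2)) := by
      intro b
      unfold Wt
      rw [cos_pow_eq]
      refine Finset.sum_congr rfl fun n _ => ?_
      unfold yb
      rw [exp_ee]
    simp only [h2, hA, Finset.sum_mul, Finset.mul_sum]
    rw [Finset.sum_comm]
    refine Finset.sum_congr rfl fun n _ => Finset.sum_congr rfl fun b _ => ?_
    ring
  have hK : K ∈ range (2 * K + 1) := Finset.mem_range.mpr (by omega)
  have hAK : A K = ((Nat.centralBinom K : ℕ) : ℂ) / 4 ^ K *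
        ∑ b : (ZMod q)ˣ, (∏ j ∈ S, RZ2.fac q R ν (b : ZMod q) j) * ee q (x * b) := by
    rw [hA]
    simp only [sub_self, Int.cast_zero, mul_zero, zero_mul, Complex.ofReal_zero, neg_zero, Complex.exp_zero, one_mul]
    unfold Nat.centralBinom
    congr 1
    refine Finset.sum_congr rfl fun b _ => ?_
    have : ee q (0 : ZMod q) = 1 := by simp [ee]
    rw [this, one_mul]
  rw [h1, ← Finset.add_sum_erase _ _ hK, hAK, add_sub_cancel_left]
  have h3 : ∀ n ∈ (range (2 * K + 1)).erase K, ‖A n‖ ≤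
      ((Nat.choose (2 * K) n : ℕ) : ℝ) / 4 ^ K * (2 ^ S.card * (2 * K * m)) := by
    intro n hn
    rw [Finset.mem_erase, Finset.mem_range] at hn
    have hk : ((n : ℤ) - K) ≠ 0 := by omega
    have h4 := riesz_phase q R ν hν (fun b => ee q ((((n : ℤ) - K : ℤ) : ZMod q) * (b : ZMod q) ^ 2))
      (2 * |(((n : ℤ) - K : ℤ) : ℝ)| * m) (fun y => quad_bound q m hq _ hk y) S x
    have h5 : |(((n : ℤ) - K : ℤ) : ℝ)| ≤ K := by
      rw [abs_le]
      push_cast
      have : (n : ℝ) ≤ 2 * K := by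
        have : n ≤ 2 * K := by omega
        exact_mod_cast this
      constructor
      · have : (0 : ℝ) ≤ n := Nat.cast_nonneg n
        linarith
      · linarith
    rw [hA]
    simp only
    rw [norm_mul, norm_mul]
    have h6 : ‖Complex.exp (-(2 * Real.pi * ((n : ℤ) - K : ℤ) * x₀ : ℝ) * Complex.I)‖ = 1 := by
      rw [← Complex.ofReal_neg]
      exact Complex.norm_exp_ofReal_mul_I _
    rw [h6, one_mul, norm_div, Complex.norm_natCast, norm_pow, Complex.norm_ofNat]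
    refine mul_le_mul_of_nonneg_left (h4.trans ?_) (by positivity)
    have h7 : 2 * |(((n : ℤ) - K : ℤ) : ℝ)| * m ≤ 2 * K * m := by
      have : (0 : ℝ) ≤ m := Nat.cast_nonneg m
      nlinarith
    exact mul_le_mul_of_nonneg_left h7 (by positivity)
  refine (norm_sum_le _ _).trans ((Finset.sum_le_sum h3).trans ?_)
  rw [← Finset.sum_mul, ← Finset.sum_div]
  have h8 : ∑ n ∈ (range (2 * K + 1)).erase K, ((Nat.choose (2 * K) n : ℕ) : ℝ) ≤ 4 ^ K := by
    calc ∑ n ∈ (range (2 * K + 1)).erase K, ((Nat.choose (2 * K) n : ℕ) : ℝ)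
        ≤ ∑ n ∈ range (2 * K + 1), ((Nat.choose (2 * K) n : ℕ) : ℝ) :=
          Finset.sum_le_sum_of_subset_of_nonneg (Finset.erase_subset _ _) fun _ _ _ => Nat.cast_nonneg _
      _ = 4 ^ K := by
          rw [← Nat.cast_sum, Nat.sum_range_choose, pow_mul]
          norm_num
  have h9 : (∑ n ∈ (range (2 * K + 1)).erase K, ((Nat.choose (2 * K) n : ℕ) : ℝ)) / 4 ^ K ≤ 1 := by
    rw [div_le_one (by positivity)]
    exact h8
  calc _ ≤ 1 * (2 ^ S.card * (2 * K * m) : ℝ) := mul_le_mul_of_nonneg_right h9 (by positivity)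
    _ = _ := one_mul _

end Pool.Agent.T9h54.MX
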