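import Pool.Agent.T9h54.MX.Ser

/-!
# The local theorem
-/

set_option autoImplicit false

open Filter Topology MeasureTheory Finset

namespace Pool.Agent.T9h54.MX

open Pool.Agent.Y821.ME

theorem main_loc (p : ℕ) [Fact p.Prime] (hp2 : p ≠ 2) (C x₀ δ : ℝ) (hC : 0 ≤ C) (hδ : 0 < δ)
    (hδ2 : δ ≤ 1 / 2) :
    ∃ κ : ℝ, 0 < κ ∧ ∃ l₀ : ℕ, 1 ≤ l₀ ∧ ∀ l : ℕ, l₀ ≤ l → ∀ C₀ : ℝ, 0 ≤ C₀ → Two.HypQ C₀ p (2 * l) →
      ∀ E : Finset (ZMod (p ^ (2 * l)))ˣ, (E.card : ℝ) ≤ κ * (p : ℝ) ^ (2 * l) →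
      ∃ b : (ZMod (p ^ (2 * l)))ˣ, b ∉ E ∧ Near δ (yb (p ^ (2 * l)) x₀ b) ∧
        ¬ ∃ v₀ : ℝ, ∀ v, v₀ ≤ v →
          ‖Mx (cR (p ^ (2 * l)) ((b ^ 2 : (ZMod (p ^ (2 * l)))ˣ) : ZMod (p ^ (2 * l)))) v‖ ≤
            2 * C * Real.sqrt v := by
  classical
  have hp : p.Prime := Fact.out
  have hpR : (1 : ℝ) ≤ p := by exact_mod_cast hp.one_lt.le
  obtain ⟨N₀, hN₀⟩ := sf2 p hp
  obtain ⟨N, hN1, hN2, hN3⟩ := ((Two.big_N2 (10 * C * Kth + 362) p hp.one_lt.le).and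
    ((eventually_ge_atTop 1).and (eventually_ge_atTop N₀))).exists
  set Sn : Finset ℕ := (Icc (2 * N) (3 * N)).filter (fun m => Squarefree m ∧ m % p = 1) with hSn
  have hcard : (N : ℝ) / (5 * p) ≤ Sn.card := by
    have := hN₀ N hN3
    rw [hSn]
    convert this
  have hN' : (1 : ℝ) ≤ N := by exact_mod_cast hN2
  have hNN : N ≤ N ^ 2 := by nlinarith
  set S : Finset ℤ := Sn.image (fun m : ℕ => (m : ℤ)) with hS
  have hSmem : ∀ m : ℕ, ((m : ℤ) ∈ S ↔ m ∈ Sn) := by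
    intro m
    rw [hS, Finset.mem_image]
    constructor
    · rintro ⟨k, hk, hk'⟩
      have : k = m := by exact_mod_cast hk'
      rwa [← this]
    · intro h
      exact ⟨m, h, rfl⟩
  have hSneg : ∀ m : ℕ, 1 ≤ m → -(m : ℤ) ∉ S := by
    intro m hm h
    rw [hS, Finset.mem_image] at h
    obtain ⟨k, -, hk⟩ := h
    omega
  have hSsub : S ⊆ Gs (100 * N ^ 2) p := by
    intro g hg
    rw [hS, Finset.mem_image] at hg
    obtain ⟨m, hm, rfl⟩ := hg
    rw [hSn, Finset.mem_filter, Finset.mem_Icc] at hm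
    obtain ⟨⟨h1, h2⟩, h3, h4⟩ := hm
    rw [Two.mem_Gs]
    refine ⟨⟨by omega, ?_⟩, ?_, ?_, ?_⟩
    · have : m ≤ 100 * N ^ 2 := by omega
      exact_mod_cast this
    · exact Int.squarefree_natCast.mpr h3
    · intro hd
      have hd' : p ∣ m := by exact_mod_cast hd
      have := Nat.mod_eq_zero_of_dvd hd'
      omega
    · have h5 : ((m : ℤ) : ZMod p) = 1 := by
        have h6 : ((m : ℕ) : ZMod p) = ((1 : ℕ) : ZMod p) := by
          rw [ZMod.natCast_eq_natCast_iff, Nat.ModEq, h4, Nat.mod_eq_of_lt hp.one_lt]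
        push_cast
        push_cast at h6
        exact h6
      rw [h5]
      exact IsSquare.one
  set ε : ℝ := 1 / (12000 * (N : ℝ) ^ 3) with hε
  have hε0 : 0 < ε := by positivity
  obtain ⟨κ, hκ, l₀, hl₀, hall⟩ := weights (100 * N ^ 2) p hp2 S hSsub x₀ δ ε hδ hδ2 hε0
  refine ⟨κ, hκ, l₀, hl₀, fun l hl' C₀ hC₀ h E hE => ?_⟩
  have hl : 1 ≤ l := hl₀.trans hl'
  obtain ⟨r, hr, hallE⟩ := hall l hl'
  obtain ⟨w, hw0, hw1, hwE, hw⟩ := hallE E hE
  by_contra hcon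
  push Not at hcon
  have hloc : ∀ b, w b ≠ 0 → ∃ v₀ : ℝ, ∀ v, v₀ ≤ v →
      ‖Mx (cR (p ^ (2 * l)) ((b ^ 2 : (ZMod (p ^ (2 * l)))ˣ) : ZMod (p ^ (2 * l)))) v‖ ≤ 2 * C * Real.sqrt v :=
    fun b hb => hcon b (hwE b hb).1 (hwE b hb).2
  set TR : ℕ → ℂ := fun n => ∑ b, (w b : ℂ) *
      cR (p ^ (2 * l)) ((b ^ 2 : (ZMod (p ^ (2 * l)))ˣ) : ZMod (p ^ (2 * l))) n with hTR
  set TL : ℕ → ℂ := fun n => ∑ b, (w b : ℂ) *
      cL (p ^ (2 * l)) ((b ^ 2 : (ZMod (p ^ (2 * l)))ˣ) : ZMod (p ^ (2 * l))) n with hTL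
  set lam : ℝ := Real.log ((p ^ (2 * l) : ℕ) / Real.pi) / 2 with hlam
  have hlam0 : 0 ≤ lam := by
    rw [hlam]
    refine div_nonneg (Real.log_nonneg ?_) (by norm_num)
    rw [le_div_iff₀ Real.pi_pos, one_mul]
    have h1 : 3 ≤ p := by
      have := hp.two_le
      omega
    have h2 : 3 ^ 2 ≤ p ^ (2 * l) := (Nat.pow_le_pow_left h1 2).trans (Nat.pow_le_pow_right hp.pos (by omega))
    have h3 : ((3 ^ 2 : ℕ) : ℝ) ≤ ((p ^ (2 * l) : ℕ) : ℝ) := by exact_mod_cast h2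
    have := Real.pi_lt_four
    norm_num at h3 ⊢
    linarith
  set U : ℝ := Real.log (10 * N) + lam with hU
  have hZ : (0 : ℝ) < 10 * N := by linarith
  have hlogZ : 0 ≤ Real.log (10 * N) := Real.log_nonneg (by linarith)
  obtain ⟨hmain, hTR2, hTL2⟩ := series_local trig sup lap lim (pairM lap lfn) ch kl2 ser hC₀ h hp hp2 hl
    w hw0 hw1 hloc TR TL hTR hTL lam U hlam
  have he1 : Real.exp (lam - U) = 1 / (10 * N) := by
    rw [hU, show lam - (Real.log (10 * N) + lam) = -Real.log (10 * N) by ring, Real.exp_neg, Real.exp_log hZ,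
      one_div]
  rw [he1] at hmain
  -- averages of Kloosterman sums
  have hp0 : (p : ℂ) ^ l ≠ 0 := pow_ne_zero _ (Nat.cast_ne_zero.mpr hp.ne_zero)
  have hpn : ‖2 * (p : ℂ) ^ l‖ = 2 * (p : ℝ) ^ l := by
    rw [norm_mul, norm_pow, Complex.norm_natCast, Complex.norm_ofNat]
  have hp0R : (0 : ℝ) < 2 * (p : ℝ) ^ l := by
    have : (0 : ℝ) < p := by linarith
    positivity
  have havg : ∀ (g : ℤ) (g' : (ZMod (p ^ (2 * l)))ˣ), (g' : ZMod (p ^ (2 * l))) = (g : ZMod (p ^ (2 * l))) →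
      Squarefree g → ¬ (p : ℤ) ∣ g → -((100 * N ^ 2 : ℕ) : ℤ) ≤ g → g ≤ ((100 * N ^ 2 : ℕ) : ℤ) →
      ‖(∑ b, (w b : ℂ) * Kl (p ^ (2 * l)) ((b ^ 2 * g'⁻¹ : (ZMod (p ^ (2 * l)))ˣ) : ZMod (p ^ (2 * l)))) /
        (2 * (p : ℂ) ^ l) - ((tg S g : ℝ) : ℂ)‖ ≤ ε := by
    intro g g' hg' hg1 hg2 hg3 hg4
    by_cases hsq : IsSquare (g : ZMod p)
    · have hgG : g ∈ Gs (100 * N ^ 2) p := by
        rw [Two.mem_Gs]
        exact ⟨⟨hg3, hg4⟩, hg1, hg2, hsq⟩
      have h1 : ∀ b : (ZMod (p ^ (2 * l)))ˣ,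
          Kl (p ^ (2 * l)) ((b ^ 2 * g'⁻¹ : (ZMod (p ^ (2 * l)))ˣ) : ZMod (p ^ (2 * l))) =
          2 * (p : ℂ) ^ l * ((ee (p ^ (2 * l)) (2 * b * r g)).re : ℂ) := fun b =>
        Two.Kl_div kl2 hp hp2 hl b (r g) g' (by rw [hg']; exact hr g hgG)
      simp only [h1]
      have h2 := hw g hgG
      have h3 : (∑ b, (w b : ℂ) * (2 * (p : ℂ) ^ l * ((ee (p ^ (2 * l)) (2 * b * r g)).re : ℂ))) /
          (2 * (p : ℂ) ^ l) - ((tg S g : ℝ) : ℂ) =
          ((∑ b, w b * (ee (p ^ (2 * l)) (2 * (b : ZMod (p ^ (2 * l))) * r g)).re - tg S g : ℝ) : ℂ) := by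
        push_cast
        rw [Finset.sum_div]
        congr 1
        refine Finset.sum_congr rfl fun b _ => ?_
        field_simp
      rw [h3, Complex.norm_real]
      exact h2
    · have hgS : g ∉ S := by
        intro hgS
        exact hsq (Two.mem_Gs.mp (hSsub hgS)).2.2.2
      have h1 : ∑ b, (w b : ℂ) * Kl (p ^ (2 * l)) ((b ^ 2 * g'⁻¹ : (ZMod (p ^ (2 * l)))ˣ) : ZMod (p ^ (2 * l))) =
          0 := by
        refine Finset.sum_eq_zero fun b _ => ?_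
        rw [(kl2 p l hp hp2 hl).2.1 _ (Two.not_square hl g g' b hg' hsq), mul_zero]
      have h2 : tg S g = 0 := by
        unfold tg
        rw [if_neg hgS]
      rw [h1, h2]
      simpa using hε0.le
  -- small coefficients
  set TT : ℕ → ℂ := fun m => if m ≤ 100 * N ^ 2 then
    (if m ∈ Sn then ((ArithmeticFunction.moebius m : ℤ) : ℂ) / 2 else 0) else TL m with hTT
  have hmu1 : ∀ m : ℕ, ‖((ArithmeticFunction.moebius m : ℤ) : ℂ)‖ ≤ 1 := fun m => norm_mu_le m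
  have hTT2 : ∀ n, ‖TT n‖ ≤ 2 := by
    intro n
    rw [hTT]
    simp only
    split_ifs
    · rw [norm_div, Complex.norm_ofNat]
      have := hmu1 n
      linarith
    · rw [norm_zero]; norm_num
    · exact hTL2 n
  have hsmall : ∀ m : ℕ, 1 ≤ m → m ≤ 100 * N ^ 2 → mu m * TT m = if m ∈ Sn then (1 / 2 : ℂ) else 0 := by
    intro m hm1 hm2
    rw [hTT]
    simp only
    rw [if_pos hm2]
    by_cases hmS : m ∈ Sn
    · rw [if_pos hmS, if_pos hmS]
      have hsqf : Squarefree m := (Finset.mem_filter.mp hmS).2.1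
      unfold mu
      have h3 : (ArithmeticFunction.moebius m : ℤ) ^ 2 = 1 :=
        ArithmeticFunction.moebius_sq_eq_one_of_squarefree hsqf
      have h4 : ((ArithmeticFunction.moebius m : ℤ) : ℂ) * ((ArithmeticFunction.moebius m : ℤ) : ℂ) = 1 := by
        rw [← sq]; exact_mod_cast h3
      rw [← mul_div_assoc, h4]
    · rw [if_neg hmS, if_neg hmS, mul_zero]
  have hclose : ∀ m : ℕ, 1 ≤ m → ‖mu m * TL m - mu m * TT m‖ ≤ 2 * ε := by
    intro m hm1
    rw [hTT]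
    simp only
    by_cases hm2 : m ≤ 100 * N ^ 2
    swap
    · rw [if_neg hm2, sub_self, norm_zero]; positivity
    rw [if_pos hm2]
    by_cases hsqf : Squarefree m
    swap
    · have h1 : mu m = 0 := by
        unfold mu
        rw [ArithmeticFunction.moebius_eq_zero_of_not_squarefree hsqf]
        simp
      rw [h1, zero_mul, zero_mul, sub_self, norm_zero]
      positivity
    rw [← mul_sub, norm_mul]
    have hmm : ‖mu m‖ ≤ 1 := norm_mu_le m
    suffices hs : ‖TL m - (if m ∈ Sn then ((ArithmeticFunction.moebius m : ℤ) : ℂ) / 2 else 0)‖ ≤ 2 * ε by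
      calc _ ≤ 1 * (2 * ε) := mul_le_mul hmm hs (norm_nonneg _) (by norm_num)
        _ = _ := one_mul _
    by_cases hpm : p ∣ m
    · have h1 : m ∉ Sn := by
        intro hm
        rw [hSn, Finset.mem_filter] at hm
        have := Nat.mod_eq_zero_of_dvd hpm
        omega
      have h2 : TL m = 0 := by
        rw [hTL]
        refine Finset.sum_eq_zero fun b _ => ?_
        have h3 := not_isUnit_nat (l := l) hp hl m hpm
        have h4 : cL (p ^ (2 * l)) ((b ^ 2 : (ZMod (p ^ (2 * l)))ˣ) : ZMod (p ^ (2 * l))) m = 0 := by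
          unfold cL
          refine Finset.sum_eq_zero fun χ _ => ?_
          rw [MulChar.map_nonunit _ h3, mul_zero]
        rw [h4, mul_zero]
      rw [h2, if_neg h1, sub_zero, norm_zero]
      positivity
    · obtain ⟨m', hm'⟩ := isUnit_nat (l := l) hp m hpm
      have hpZ : ¬ (p : ℤ) ∣ (m : ℤ) := fun hd => hpm (by exact_mod_cast hd)
      have hsqZ : Squarefree (m : ℤ) := Int.squarefree_natCast.mpr hsqf
      have hmle : (m : ℤ) ≤ ((100 * N ^ 2 : ℕ) : ℤ) := by exact_mod_cast hm2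
      have e1 := havg (m : ℤ) m' (by rw [hm']; push_cast; rfl) hsqZ hpZ (by omega) hmle
      have e2 := havg (-(m : ℤ)) (-m') (by rw [Units.val_neg, hm']; push_cast; rfl)
        (by
          have := hsqZ
          rwa [← Int.squarefree_natAbs, Int.natAbs_neg, Int.squarefree_natAbs]) (by
          rwa [Int.dvd_neg]) (by omega) (by omega)
      have h2 : TL m = (∑ b, (w b : ℂ) * Kl (p ^ (2 * l))
            ((b ^ 2 * m'⁻¹ : (ZMod (p ^ (2 * l)))ˣ) : ZMod (p ^ (2 * l)))) / (2 * (p : ℂ) ^ l) +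
          (∑ b, (w b : ℂ) * Kl (p ^ (2 * l)) ((b ^ 2 * (-m')⁻¹ : (ZMod (p ^ (2 * l)))ˣ) :
              ZMod (p ^ (2 * l)))) / (2 * (p : ℂ) ^ l) := by
        rw [← add_div, ← Finset.sum_add_distrib, Finset.sum_div]
        rw [hTL]
        refine Finset.sum_congr rfl fun b _ => ?_
        have h3 := cL_eq ch hp hp2 hl (b ^ 2) m' m hm'
        rw [h3]
        have h4 : -((b ^ 2 * m'⁻¹ : (ZMod (p ^ (2 * l)))ˣ) : ZMod (p ^ (2 * l))) =
            ((b ^ 2 * (-m')⁻¹ : (ZMod (p ^ (2 * l)))ˣ) : ZMod (p ^ (2 * l))) := by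
          rw [← Units.val_neg]
          congr 1
          rw [inv_neg, mul_neg]
        rw [h4]
        ring
      have h5 : (if m ∈ Sn then ((ArithmeticFunction.moebius m : ℤ) : ℂ) / 2 else 0) =
          ((tg S (m : ℤ) : ℝ) : ℂ) + ((tg S (-(m : ℤ)) : ℝ) : ℂ) := by
        have h6 : ((m : ℤ) ∈ S) = (m ∈ Sn) := propext (hSmem m)
        unfold tg
        rw [if_neg (hSneg m hm1)]
        simp only [h6, Int.natAbs_natCast]
        split_ifs <;> push_cast <;> ring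
      rw [h2, h5, add_sub_add_comm]
      refine (norm_add_le _ _).trans ?_
      linarith
  have hlow := left_lower vb N hN2 Sn (fun m hm => by
    rw [hSn, Finset.mem_filter, Finset.mem_Icc] at hm
    exact hm.1) TT hTT2 hsmall
  have hdiff := series_diff vb (10 * N) (2 * ε) hZ TL TT hTL2 hTT2 hclose
  have hdiff1 : 6 * (2 * ε) * (10 * (N : ℝ)) ^ 3 ≤ 1 := by
    rw [hε]
    have : (0 : ℝ) < (N : ℝ) ^ 3 := by positivity
    have e : 6 * (2 * (1 / (12000 * (N : ℝ) ^ 3))) * (10 * (N : ℝ)) ^ 3 = 1 := by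
      field_simp
      norm_num
    exact e.le
  have hXU : 1 ≤ Real.exp (lam + U) := Real.one_le_exp (by rw [hU]; linarith)
  have hright := right_upper vb (Real.exp (lam + U)) hXU TR hTR2
  set SR := ∑' n : ℕ, mu (n + 1) * TR (n + 1) * ((VR ((n + 1 : ℕ) * Real.exp (lam + U)) : ℝ) : ℂ) with hSR
  set SL := ∑' n : ℕ, mu (n + 1) * TL (n + 1) * ((VL ((n + 1 : ℕ) * (1 / (10 * N : ℝ))) : ℝ) : ℂ) with hSL
  set SL' := ∑' n : ℕ, mu (n + 1) * TT (n + 1) * ((VL ((n + 1 : ℕ) * (1 / (10 * N : ℝ))) : ℝ) : ℂ) with hSL'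
  have hlow' : (Sn.card : ℝ) / 5 - 2 ≤ ‖SL‖ := by
    have h1 : ‖SL'‖ ≤ ‖SL‖ + ‖SL - SL'‖ := by
      have := norm_sub_le SL (SL - SL')
      rwa [sub_sub_cancel] at this
    linarith
  -- multiply by exp (U/2)
  have hexp : (0 : ℝ) < Real.exp (U / 2) := Real.exp_pos _
  have h1 : Real.exp (-U / 2) * ‖SL‖ ≤ 5 * (2 * C * Real.exp (-lam / 2) * Kth) + Real.exp (U / 2) * ‖SR‖ := by
    have e1 : ‖(Real.exp (-U / 2) : ℂ) * SL‖ = Real.exp (-U / 2) * ‖SL‖ := by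
      rw [norm_mul, Complex.norm_real, Real.norm_of_nonneg (Real.exp_pos _).le]
    have e2 : ‖(Real.exp (U / 2) : ℂ) * SR‖ = Real.exp (U / 2) * ‖SR‖ := by
      rw [norm_mul, Complex.norm_real, Real.norm_of_nonneg (Real.exp_pos _).le]
    have e3 := norm_sub_norm_le ((Real.exp (-U / 2) : ℂ) * SL) ((Real.exp (U / 2) : ℂ) * SR)
    rw [norm_sub_rev] at e3
    rw [e1, e2] at e3
    linarith
  have h2 : ‖SL‖ ≤ Real.exp (U / 2) * (5 * (2 * C * Real.exp (-lam / 2) * Kth)) +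
      Real.exp U * ‖SR‖ := by
    have e1 : Real.exp (U / 2) * (Real.exp (-U / 2) * ‖SL‖) = ‖SL‖ := by
      rw [← mul_assoc, ← Real.exp_add, show U / 2 + -U / 2 = 0 by ring, Real.exp_zero, one_mul]
    have e2 : Real.exp (U / 2) * (Real.exp (U / 2) * ‖SR‖) = Real.exp U * ‖SR‖ := by
      rw [← mul_assoc, ← Real.exp_add, show U / 2 + U / 2 = U by ring]
    have e3 := mul_le_mul_of_nonneg_left h1 hexp.le
    rw [e1, mul_add, e2] at e3
    exact e3
  have h3 : Real.exp (U / 2) * (5 * (2 * C * Real.exp (-lam / 2) * Kth)) =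
      10 * C * Kth * Real.sqrt (10 * N) := by
    have e1 : Real.exp (U / 2) = Real.sqrt (10 * N) * Real.exp (lam / 2) := by
      rw [hU, add_div, Real.exp_add]
      congr 1
      rw [Real.sqrt_eq_rpow, Real.rpow_def_of_pos hZ]
      congr 1
      ring
    have e2 : Real.exp (lam / 2) * Real.exp (-lam / 2) = 1 := by
      rw [← Real.exp_add, show lam / 2 + -lam / 2 = 0 by ring, Real.exp_zero]
    rw [e1]
    calc Real.sqrt (10 * N) * Real.exp (lam / 2) * (5 * (2 * C * Real.exp (-lam / 2) * Kth))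
        = (Real.exp (lam / 2) * Real.exp (-lam / 2)) * (10 * C * Kth * Real.sqrt (10 * N)) := by ring
      _ = _ := by rw [e2, one_mul]
  have h4 : Real.exp U * ‖SR‖ ≤ 360 := by
    have e0 : Real.exp U ≤ Real.exp (lam + U) := Real.exp_le_exp.mpr (by linarith)
    have e1 : Real.exp (lam + U) ≤ Real.exp (lam + U) ^ 3 := by
      nlinarith [sq_nonneg (Real.exp (lam + U)), mul_self_nonneg (Real.exp (lam + U) - 1)]
    have hpos : 0 < Real.exp (lam + U) := Real.exp_pos _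
    calc Real.exp U * ‖SR‖ ≤ Real.exp (lam + U) ^ 3 * (360 / Real.exp (lam + U) ^ 3) :=
          mul_le_mul (e0.trans e1) hright (norm_nonneg _) (by positivity)
      _ = 360 := by field_simp
  have hfin : (Sn.card : ℝ) / 5 - 2 ≤ 10 * C * Kth * Real.sqrt (10 * N) + 360 := by
    linarith
  have h5 : (1 : ℝ) ≤ Real.sqrt (10 * N) := by
    rw [Real.one_le_sqrt]; linarith
  have h6 : (10 * C * Kth + 362) * Real.sqrt (10 * N) + 1 < N / (25 * p) := hN1
  have h7 : (N : ℝ) / (25 * p) = (N / (5 * p)) / 5 := by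
    rw [div_div]
    congr 1
    ring
  nlinarith

end Pool.Agent.T9h54.MX
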