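import Pool.Agent.Y821.ME.Top2

/-!
# Localised Riesz products: incomplete quadratic phases modulo `p ^ (2l)`
-/

set_option autoImplicit false

open Filter Topology Finset

namespace Pool.Agent.T9h54.MX

open Pool.Agent.Y821.ME

section

/-- the number of solutions of `n b = c` is at most `n` -/
theorem card_sol (q n : ℕ) [NeZero q] (hn : 0 < n) (c : ZMod q) (s : Finset (ZMod q))
    (hs : ∀ b ∈ s, (n : ZMod q) * b = c) : s.card ≤ n := by
  classical
  rcases s.eq_empty_or_nonempty with h | ⟨b₀, hb₀⟩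
  · rw [h]; simp
  · have h1 := IsAddCyclic.card_nsmul_eq_zero_le (α := ZMod q) hn
    refine le_trans ?_ h1
    refine Finset.card_le_card_of_injOn (fun b => b - b₀) ?_ ?_
    · intro b hb
      have hb' : b ∈ s := hb
      simp only [Finset.coe_filter, Finset.mem_univ, true_and, Set.mem_setOf_eq, nsmul_eq_mul]
      rw [mul_sub, hs b hb', hs b₀ hb₀, sub_self]
    · intro a _ b _ hab
      exact sub_left_injective hab

theorem geom_ee (q m : ℕ) [NeZero q] (hq : m * m = q) (y : ZMod q) :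
    ‖∑ t ∈ range m, ee q ((m : ZMod q) * t * y)‖ ≤ if (m : ZMod q) * y = 0 then (m : ℝ) else 0 := by
  split_ifs with h
  · refine (norm_sum_le _ _).trans ?_
    rw [Finset.sum_congr rfl fun t _ => norm_ee q _]
    simp
  · have hz : ∀ t : ℕ, ee q ((m : ZMod q) * t * y) = (ee q ((m : ZMod q) * y)) ^ t := by
      intro t
      simp only [ee]
      rw [← AddChar.map_nsmul_eq_pow, nsmul_eq_mul]
      congr 1
      ring
    have hne : ee q ((m : ZMod q) * y) ≠ 1 := by
      intro h1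
      apply h
      apply ZMod.injective_stdAddChar (N := q)
      rw [AddChar.map_zero_eq_one]
      exact h1
    rw [Finset.sum_congr rfl fun t _ => hz t, geom_sum_eq hne, ← hz]
    have h2 : (m : ZMod q) * m * y = 0 := by
      rw [← Nat.cast_mul, hq, ZMod.natCast_self, zero_mul]
    rw [h2]
    simp [ee]

/-- the unit `b + m t` -/
theorem exists_shift (q m : ℕ) [NeZero q] (hq : m * m = q) (t : ℕ) : ∃ σ : (ZMod q)ˣ → (ZMod q)ˣ,
    Function.Bijective σ ∧ ∀ b, ((σ b : (ZMod q)ˣ) : ZMod q) = b + (m : ZMod q) * t := by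
  have hnil : IsNilpotent ((m : ZMod q) * t) := by
    refine ⟨2, ?_⟩
    calc ((m : ZMod q) * t) ^ 2 = ((m * m : ℕ) : ZMod q) * (t : ZMod q) ^ 2 := by
          push_cast; ring
      _ = 0 := by rw [hq, ZMod.natCast_self, zero_mul]
  have hu : ∀ b : (ZMod q)ˣ, IsUnit ((b : ZMod q) + (m : ZMod q) * t) := fun b =>
    hnil.isUnit_add_left_of_commute b.isUnit (Commute.all _ _)
  refine ⟨fun b => (hu b).unit, ?_, fun b => rfl⟩
  refine Finite.injective_iff_bijective.mp ?_
  intro a b hab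
  have h1 : (((hu a).unit : (ZMod q)ˣ) : ZMod q) = (hu b).unit := by
    exact congrArg _ hab
  simp only [IsUnit.unit_spec] at h1
  exact Units.ext (add_right_cancel h1)

/-- a quadratic phase -/
theorem quad_bound (q m : ℕ) [NeZero q] (hq : m * m = q) (k : ℤ) (hk : k ≠ 0) (x : ZMod q) :
    ‖∑ b : (ZMod q)ˣ, ee q ((k : ZMod q) * (b : ZMod q) ^ 2) * ee q (x * b)‖ ≤ 2 * |(k : ℝ)| * m := by
  classical
  have hm0 : 0 < m := by
    rcases Nat.eq_zero_or_pos m with h | h
    · subst h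
      exact absurd hq.symm (NeZero.ne q)
    · exact h
  set P : ZMod q := (m : ZMod q) with hP
  have hPP : P * P = 0 := by
    rw [hP, ← Nat.cast_mul, hq, ZMod.natCast_self]
  set f : ZMod q → ℂ := fun b => ee q ((k : ZMod q) * b ^ 2) * ee q (x * b) with hf
  have hfn : ∀ b, ‖f b‖ = 1 := by
    intro b
    rw [hf]
    simp only
    rw [norm_mul, norm_ee, norm_ee, one_mul]
  have hshift : ∀ (b : ZMod q) (t : ℕ), f (b + P * t) = f b * ee q (P * t * (2 * k * b + x)) := by
    intro b t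
    rw [hf]
    simp only [ee]
    rw [← AddChar.map_add_eq_mul, ← AddChar.map_add_eq_mul, ← AddChar.map_add_eq_mul]
    congr 1
    have : (k : ZMod q) * (b + P * t) ^ 2 + x * (b + P * t) =
        k * b ^ 2 + x * b + P * t * (2 * k * b + x) + (P * P) * (k * (t : ZMod q) ^ 2) := by ring
    rw [this, hPP, zero_mul, add_zero]
  have h1 : (m : ℂ) * ∑ b : (ZMod q)ˣ, f b =
      ∑ b : (ZMod q)ˣ, f b * ∑ t ∈ range m, ee q (P * t * (2 * k * (b : ZMod q) + x)) := by
    have h2 : ∀ t ∈ range m, ∑ b : (ZMod q)ˣ, f b =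
        ∑ b : (ZMod q)ˣ, f b * ee q (P * t * (2 * k * (b : ZMod q) + x)) := by
      intro t _
      obtain ⟨σ, hσ, hσ'⟩ := exists_shift q m hq t
      rw [← hσ.sum_comp (fun b : (ZMod q)ˣ => f b)]
      refine Finset.sum_congr rfl fun b _ => ?_
      rw [hσ' b, hshift]
    have h3 := Finset.sum_congr rfl h2
    rw [Finset.sum_const, Finset.card_range, nsmul_eq_mul] at h3
    rw [h3, Finset.sum_comm]
    refine Finset.sum_congr rfl fun b _ => ?_
    rw [Finset.mul_sum]
  have h4 : (m : ℝ) * ‖∑ b : (ZMod q)ˣ, f b‖ ≤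
      ∑ b : (ZMod q)ˣ, if P * (2 * k * (b : ZMod q) + x) = 0 then (m : ℝ) else 0 := by
    have h5 : ‖(m : ℂ) * ∑ b : (ZMod q)ˣ, f b‖ = (m : ℝ) * ‖∑ b : (ZMod q)ˣ, f b‖ := by
      rw [norm_mul, Complex.norm_natCast]
    rw [← h5, h1]
    refine (norm_sum_le _ _).trans (Finset.sum_le_sum fun b _ => ?_)
    rw [norm_mul, hfn, one_mul]
    exact geom_ee q m hq _
  rw [← Finset.sum_filter, Finset.sum_const, nsmul_eq_mul] at h4
  have h6 : ((univ : Finset (ZMod q)ˣ).filter fun b : (ZMod q)ˣ => P * (2 * k * (b : ZMod q) + x) = 0).card ≤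
      2 * k.natAbs * m := by
    rw [← Finset.card_image_of_injective (f := fun b : (ZMod q)ˣ => (b : ZMod q)) _ Units.val_injective]
    refine card_sol q _ (by positivity) (if 0 ≤ k then -(P * x) else P * x) _ ?_
    intro b hb
    rw [Finset.mem_image] at hb
    obtain ⟨u, hu, rfl⟩ := hb
    rw [Finset.mem_filter] at hu
    have h7 := hu.2
    have h8 : P * 2 * k * u = -(P * x) := by
      have : P * (2 * k * (u : ZMod q) + x) = P * 2 * k * u + P * x := by ring
      rw [this] at h7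
      exact eq_neg_of_add_eq_zero_left h7
    have h9 : ((2 * k.natAbs * m : ℕ) : ZMod q) = 2 * ((k.natAbs : ℕ) : ZMod q) * P := by
      rw [hP]; push_cast; ring
    rw [h9]
    split_ifs with hk0
    · have : ((k.natAbs : ℕ) : ZMod q) = (k : ZMod q) := by
        conv_rhs => rw [← Int.natAbs_of_nonneg hk0]
        rw [Int.cast_natCast]
      rw [this, ← h8]; ring
    · have : ((k.natAbs : ℕ) : ZMod q) = -(k : ZMod q) := by
        have h10 : k = -((k.natAbs : ℕ) : ℤ) := by omega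
        conv_rhs => rw [h10]
        rw [Int.cast_neg, Int.cast_natCast, neg_neg]
      rw [this]
      have : P * x = -(P * 2 * k * u) := by rw [h8, neg_neg]
      rw [this]; ring
  have h7 : (((univ : Finset (ZMod q)ˣ).filter fun b : (ZMod q)ˣ =>
      P * (2 * k * (b : ZMod q) + x) = 0).card : ℝ) ≤ 2 * |(k : ℝ)| * m := by
    have h8 : (((univ : Finset (ZMod q)ˣ).filter fun b : (ZMod q)ˣ =>
      P * (2 * k * (b : ZMod q) + x) = 0).card : ℝ) ≤ ((2 * k.natAbs * m : ℕ) : ℝ) := by exact_mod_cast h6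
    refine h8.trans (le_of_eq ?_)
    push_cast
    rw [Nat.cast_natAbs]
    push_cast
    ring
  have hm0' : (0 : ℝ) < (m : ℝ) := by exact_mod_cast hm0
  rw [mul_comm] at h4
  exact (le_of_mul_le_mul_right h4 hm0').trans h7

end

/-- multiplication of a phase by the factors of a Riesz product -/
theorem riesz_phase (q : ℕ) [NeZero q] (R : ℤ → ZMod q) (ν : ℤ → ℂ) (hν : ∀ j, ‖ν j‖ ≤ 1)
    (Φ : (ZMod q)ˣ → ℂ) (B : ℝ) (hB : ∀ x : ZMod q, ‖∑ b : (ZMod q)ˣ, Φ b * ee q (x * b)‖ ≤ B) (S : Finset ℤ) :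
    ∀ x : ZMod q, ‖∑ b : (ZMod q)ˣ, (∏ j ∈ S, RZ2.fac q R ν (b : ZMod q) j) * (Φ b * ee q (x * b))‖ ≤
      2 ^ S.card * B := by
  classical
  induction S using Finset.induction_on with
  | empty => intro x; simpa using hB x
  | insert j S hj ih =>
    intro x
    have hexp : ∀ b : (ZMod q)ˣ, (∏ i ∈ insert j S, RZ2.fac q R ν (b : ZMod q) i) * (Φ b * ee q (x * b)) =
        (∏ i ∈ S, RZ2.fac q R ν (b : ZMod q) i) * (Φ b * ee q (x * b)) +
        ν j / 2 * ((∏ i ∈ S, RZ2.fac q R ν (b : ZMod q) i) * (Φ b * ee q ((x + 2 * R j) * b))) +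
        ν j / 2 * ((∏ i ∈ S, RZ2.fac q R ν (b : ZMod q) i) * (Φ b * ee q ((x - 2 * R j) * b))) := by
      intro b
      rw [Finset.prod_insert hj]
      have e1 : (x + 2 * R j) * (b : ZMod q) = x * b + 2 * b * R j := by ring
      have e2 : (x - 2 * R j) * (b : ZMod q) = x * b + -(2 * b * R j) := by ring
      rw [e1, e2]
      simp only [RZ2.fac, ee]
      rw [AddChar.map_add_eq_mul, AddChar.map_add_eq_mul]
      ring
    rw [Finset.sum_congr rfl fun b _ => hexp b, Finset.sum_add_distrib, Finset.sum_add_distrib, ← Finset.mul_sum,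
      ← Finset.mul_sum, Finset.card_insert_of_notMem hj]
    have h0 := ih x
    have h1 := ih (x + 2 * R j)
    have h2 := ih (x - 2 * R j)
    have hB0 : 0 ≤ 2 ^ S.card * B := (norm_nonneg _).trans h0
    have hν2 : ‖ν j / 2‖ ≤ 1 / 2 := by
      rw [norm_div, Complex.norm_ofNat]
      have := hν j
      linarith
    refine (norm_add₃_le).trans ?_
    rw [norm_mul, norm_mul]
    have h3 : ‖ν j / 2‖ * ‖∑ b : (ZMod q)ˣ, (∏ i ∈ S, RZ2.fac q R ν (b : ZMod q) i) *
        (Φ b * ee q ((x + 2 * R j) * b))‖ ≤ 1 / 2 * (2 ^ S.card * B) :=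
      mul_le_mul hν2 h1 (norm_nonneg _) (by norm_num)
    have h4 : ‖ν j / 2‖ * ‖∑ b : (ZMod q)ˣ, (∏ i ∈ S, RZ2.fac q R ν (b : ZMod q) i) *
        (Φ b * ee q ((x - 2 * R j) * b))‖ ≤ 1 / 2 * (2 ^ S.card * B) :=
      mul_le_mul hν2 h2 (norm_nonneg _) (by norm_num)
    rw [pow_succ]
    linarith

end Pool.Agent.T9h54.MX
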