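import Pool.Agent.T9h54.MX.Quad

/-!
# Localised Riesz products: the weights
-/

set_option autoImplicit false

open Filter Topology Finset

namespace Pool.Agent.T9h54.MX

open Pool.Agent.Y821.ME

/-- the Möbius function on the integers -/
noncomputable def nu (m : ℤ) : ℂ := ((ArithmeticFunction.moebius m.natAbs : ℤ) : ℂ)

open Classical in
/-- the target values -/
noncomputable def tg (S : Finset ℤ) (g : ℤ) : ℝ :=
  if g ∈ S then ((ArithmeticFunction.moebius g.natAbs : ℤ) : ℝ) / 2 else 0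

open RZ2 in
/-- the Riesz products of the library, with their formula -/
theorem rz2x (Y p : ℕ) [Fact p.Prime] (hp2 : p ≠ 2) (S : Finset ℤ) (hS : S ⊆ Gs Y p) :
    ∃ l₀ : ℕ, 1 ≤ l₀ ∧ ∀ l : ℕ, l₀ ≤ l → ∃ r : ℤ → (ZMod (p ^ (2 * l)))ˣ,
    (∀ g ∈ Gs Y p, (g : ZMod (p ^ (2 * l))) * (r g : ZMod (p ^ (2 * l))) ^ 2 = 1) ∧
    ∃ w : (ZMod (p ^ (2 * l)))ˣ → ℝ, (∀ b, 0 ≤ w b) ∧ ∑ b, w b = 1 ∧
      (∀ g ∈ Gs Y p, ∑ b, w b * (ee (p ^ (2 * l)) (2 * (b : ZMod (p ^ (2 * l))) * r g)).re = tg S g) ∧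
      ∀ b, (w b : ℂ) = (Fintype.card (ZMod (p ^ (2 * l)))ˣ : ℂ)⁻¹ *
        ∏ j ∈ S, fac (p ^ (2 * l)) (fun m => ((r m : (ZMod (p ^ (2 * l)))ˣ) : ZMod (p ^ (2 * l)))) nu
          (b : ZMod (p ^ (2 * l))) j := by
  classical
  obtain ⟨ρ, hρ1, hρ2⟩ := li2 Y p hp2
  set SF := Gs Y p with hSF
  obtain ⟨n0, hn0⟩ := uniform p SF ρ hρ2
  refine ⟨n0 + 1, by omega, ?_⟩
  intro l hl0
  have hl1 : 1 ≤ l := by omega
  have hl2 : n0 ≤ 2 * l - 1 := by omega
  have hm1 : ∀ m ∈ SF, (m : ZMod (p ^ (2 * l))) * (PadicInt.toZModPow (2 * l) (ρ m)) ^ 2 = 1 := by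
    intro m h1
    have := congrArg (PadicInt.toZModPow (p := p) (2 * l)) (hρ1 m h1)
    rw [map_mul, map_pow, map_intCast, map_one] at this
    exact this
  let r : ℤ → (ZMod (p ^ (2 * l)))ˣ := fun m =>
    if h : IsUnit (PadicInt.toZModPow (p := p) (2 * l) (ρ m)) then h.unit else 1
  have hr : ∀ m ∈ SF, ((r m : (ZMod (p ^ (2 * l)))ˣ) : ZMod (p ^ (2 * l))) = PadicInt.toZModPow (2 * l) (ρ m) := by
    intro m h1
    have hu : IsUnit (PadicInt.toZModPow (p := p) (2 * l) (ρ m)) := by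
      have := hm1 m h1
      apply IsUnit.of_mul_eq_one ((m : ZMod (p ^ (2 * l))) * PadicInt.toZModPow (2 * l) (ρ m))
      rw [← this]; ring
    simp only [r]
    rw [dif_pos hu]
    rfl
  refine ⟨r, fun m h1 => by rw [hr m h1]; exact hm1 m h1, ?_⟩
  set R : ℤ → ZMod (p ^ (2 * l)) := fun m => ((r m : (ZMod (p ^ (2 * l)))ˣ) : ZMod (p ^ (2 * l))) with hRdef
  have hR : ∀ h : ℤ → ℤ, (∀ m ∈ SF, |h m| ≤ 2) → (∃ m ∈ SF, h m ≠ 0) →
      (p : ZMod (p ^ (2 * l))) * (2 * ∑ m ∈ SF, (h m : ZMod (p ^ (2 * l))) * R m) ≠ 0 := by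
    intro h hb hne h0
    apply hn0 h hb hne
    have h1 : (2 * ∑ m ∈ SF, (h m : ZMod (p ^ (2 * l))) * R m) =
        PadicInt.toZModPow (2 * l) (2 * ∑ m ∈ SF, (h m : ℤ_[p]) * ρ m) := by
      rw [map_mul, map_sum, map_ofNat]
      congr 1
      apply Finset.sum_congr rfl
      intro m hm
      rw [map_mul, map_intCast, ← hr m hm]
    rw [h1] at h0
    exact (pow_dvd_pow _ hl2).trans (dvd_of_mul_eq_zero p l hl1 _ h0)
  set ν : ℤ → ℂ := nu with hνdef
  have hri := riesz p l SF R ν hR S hS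
  have hcard : (0 : ℝ) < (Fintype.card (ZMod (p ^ (2 * l)))ˣ : ℝ) := by
    exact_mod_cast Fintype.card_pos
  have hcardC : (Fintype.card (ZMod (p ^ (2 * l)))ˣ : ℂ) ≠ 0 := by
    have : Fintype.card (ZMod (p ^ (2 * l)))ˣ ≠ 0 := Fintype.card_ne_zero
    exact_mod_cast this
  let w : (ZMod (p ^ (2 * l)))ˣ → ℝ := fun b => (Fintype.card (ZMod (p ^ (2 * l)))ˣ : ℝ)⁻¹ *
    ∏ j ∈ S, (1 + ((ArithmeticFunction.moebius j.natAbs : ℤ) : ℝ) * (ee (p ^ (2 * l)) (2 * (b : ZMod (p ^ (2 * l))) * r j)).re)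
  have hconj : ∀ x : ZMod (p ^ (2 * l)), ee (p ^ (2 * l)) x + ee (p ^ (2 * l)) (-x) = 2 * ((ee (p ^ (2 * l)) x).re : ℂ) := by
    intro x
    have : ee (p ^ (2 * l)) (-x) = (starRingEnd ℂ) (ee (p ^ (2 * l)) x) := by
      simp only [ee]
      exact AddChar.map_neg_eq_conj _ _
    rw [this, Complex.add_conj]
    push_cast
    ring
  have hnorm : ∀ x : ZMod (p ^ (2 * l)), |(ee (p ^ (2 * l)) x).re| ≤ 1 := by
    intro x
    refine (Complex.abs_re_le_norm _).trans ?_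
    simp only [ee]
    rw [AddChar.norm_apply]
  have hwC : ∀ b, (w b : ℂ) = (Fintype.card (ZMod (p ^ (2 * l)))ˣ : ℂ)⁻¹ *
      ∏ j ∈ S, fac (p ^ (2 * l)) R ν (b : ZMod (p ^ (2 * l))) j := by
    intro b
    simp only [w]
    push_cast
    congr 1
    apply Finset.prod_congr rfl
    intro j _
    simp only [fac, hconj, hνdef, nu, R]
    ring
  have hmain : ∀ g : ℤ → ℤ, (∀ m ∈ SF, |g m| ≤ 1) →
      ∑ b : (ZMod (p ^ (2 * l)))ˣ, (w b : ℂ) *
        ee (p ^ (2 * l)) ((b : ZMod (p ^ (2 * l))) * (2 * ∑ m ∈ SF, (g m : ZMod (p ^ (2 * l))) * R m)) =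
      ∏ m ∈ SF, cc ν S m (g m) := by
    intro g hg
    have h1 := hri g (fun m hm => (hg m hm).trans (by norm_num)) (fun m hm => hg m (hS hm))
    calc ∑ b : (ZMod (p ^ (2 * l)))ˣ, (w b : ℂ) *
        ee (p ^ (2 * l)) ((b : ZMod (p ^ (2 * l))) * (2 * ∑ m ∈ SF, (g m : ZMod (p ^ (2 * l))) * R m))
        = (Fintype.card (ZMod (p ^ (2 * l)))ˣ : ℂ)⁻¹ * ∑ b : (ZMod (p ^ (2 * l)))ˣ, (∏ j ∈ S, fac (p ^ (2 * l)) R ν (b : ZMod (p ^ (2 * l))) j) *
        ee (p ^ (2 * l)) ((b : ZMod (p ^ (2 * l))) * (2 * ∑ m ∈ SF, (g m : ZMod (p ^ (2 * l))) * R m)) := by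
          rw [Finset.mul_sum (s := (Finset.univ : Finset (ZMod (p ^ (2 * l)))ˣ))]
          apply Finset.sum_congr rfl
          intro b _
          rw [hwC]; ring
      _ = ∏ m ∈ SF, cc ν S m (g m) := by
          rw [h1, ← mul_assoc, inv_mul_cancel₀ hcardC, one_mul]
  refine ⟨w, ?_, ?_, ?_, hwC⟩
  · intro b
    apply mul_nonneg (inv_nonneg.mpr hcard.le)
    apply Finset.prod_nonneg
    intro j _
    have h1 := hnorm (2 * (b : ZMod (p ^ (2 * l))) * r j)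
    have h2 : |((ArithmeticFunction.moebius j.natAbs : ℤ) : ℝ)| ≤ 1 := by
      exact_mod_cast ArithmeticFunction.abs_moebius_le_one (n := j.natAbs)
    have h3 : |((ArithmeticFunction.moebius j.natAbs : ℤ) : ℝ) * (ee (p ^ (2 * l)) (2 * (b : ZMod (p ^ (2 * l))) * r j)).re| ≤ 1 := by
      rw [abs_mul]
      calc _ ≤ 1 * 1 := mul_le_mul h2 h1 (abs_nonneg _) zero_le_one
        _ = 1 := by norm_num
    linarith [(abs_le.mp h3).1]
  · have h1 := hmain (fun _ => 0) (fun m _ => by norm_num)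
    have h2 : ∏ m ∈ SF, cc ν S m ((fun _ => (0 : ℤ)) m) = 1 := by
      apply Finset.prod_eq_one
      intro m _
      simp [cc]
    rw [h2] at h1
    have h3 : ((∑ b, w b : ℝ) : ℂ) = 1 := by
      rw [← h1]
      push_cast
      apply Finset.sum_congr rfl
      intro b _
      simp [ee]
    exact_mod_cast h3
  · intro m hm
    let g : ℤ → ℤ := fun j => if j = m then 1 else 0
    have h1 := hmain g (fun j _ => by simp only [g]; split_ifs <;> norm_num)
    have h2 : ∏ j ∈ SF, cc ν S j (g j) = cc ν S m 1 := by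
      rw [← Finset.mul_prod_erase SF _ hm]
      have : ∏ j ∈ SF.erase m, cc ν S j (g j) = 1 := by
        apply Finset.prod_eq_one
        intro j hj
        simp only [g, if_neg (Finset.ne_of_mem_erase hj)]
        simp [cc]
      rw [this, mul_one]
      simp [g]
    have h3 : ∑ j ∈ SF, (g j : ZMod (p ^ (2 * l))) * R j = R m := by
      rw [← Finset.add_sum_erase SF _ hm]
      have : ∑ j ∈ SF.erase m, (g j : ZMod (p ^ (2 * l))) * R j = 0 := by
        apply Finset.sum_eq_zero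
        intro j hj
        simp only [g, if_neg (Finset.ne_of_mem_erase hj)]
        simp
      rw [this, add_zero]
      simp [g]
    rw [h2, h3] at h1
    have h4 : ∑ b, w b * (ee (p ^ (2 * l)) (2 * (b : ZMod (p ^ (2 * l))) * r m)).re =
        (cc ν S m 1).re := by
      rw [← h1, Complex.re_sum]
      apply Finset.sum_congr rfl
      intro b _
      rw [Complex.re_ofReal_mul]
      congr 3
      simp only [R]
      ring
    rw [h4]
    simp only [cc, hνdef, nu, tg]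
    by_cases hmS : m ∈ S
    · simp only [hmS, if_true]
      norm_num
    · simp [hmS]

end Pool.Agent.T9h54.MX
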