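import Pool.Agent.T9h54.MX.Wts

/-!
# The averaged inequality with local bounds
-/

set_option autoImplicit false

open Filter Topology MeasureTheory Finset

namespace Pool.Agent.T9h54.MX

open Pool.Agent.Y821.ME

/-- the averaged inequality between the two series; the small constant is only needed on the support -/
theorem series_local (htrig : S_TRIG) (hsup : S_SUP) (hlap : S_LAP) (hlim : S_LIM) (hpair : S_PAIR)
    (hch : S_CH) (hkl : S_KL2) (hser : S_SER) {C C₀ : ℝ} (hC₀ : 0 ≤ C₀)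
    {p l : ℕ} [NeZero (p ^ (2 * l))] (h : Two.HypQ C₀ p (2 * l)) (hp : p.Prime) (hp2 : p ≠ 2) (hl : 1 ≤ l)
    (w : (ZMod (p ^ (2 * l)))ˣ → ℝ) (hw0 : ∀ b, 0 ≤ w b) (hw1 : ∑ b, w b = 1)
    (hloc : ∀ b, w b ≠ 0 → ∃ v₀ : ℝ, ∀ v, v₀ ≤ v →
      ‖Mx (cR (p ^ (2 * l)) ((b ^ 2 : (ZMod (p ^ (2 * l)))ˣ) : ZMod (p ^ (2 * l)))) v‖ ≤ 2 * C * Real.sqrt v)
    (TR TL : ℕ → ℂ)
    (hTR : TR = fun n => ∑ b, (w b : ℂ) *
      cR (p ^ (2 * l)) ((b ^ 2 : (ZMod (p ^ (2 * l)))ˣ) : ZMod (p ^ (2 * l))) n)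
    (hTL : TL = fun n => ∑ b, (w b : ℂ) *
      cL (p ^ (2 * l)) ((b ^ 2 : (ZMod (p ^ (2 * l)))ˣ) : ZMod (p ^ (2 * l))) n)
    (lam U : ℝ) (hlam : lam = Real.log ((p ^ (2 * l) : ℕ) / Real.pi) / 2) :
    ‖(Real.exp (U / 2) : ℂ) *
        ∑' n : ℕ, mu (n + 1) * TR (n + 1) * (VR ((n + 1 : ℕ) * Real.exp (lam + U)) : ℝ) -
      (Real.exp (-U / 2) : ℂ) *
        ∑' n : ℕ, mu (n + 1) * TL (n + 1) * (VL ((n + 1 : ℕ) * Real.exp (lam - U)) : ℝ)‖ ≤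
      5 * (2 * C * Real.exp (-lam / 2) * Kth) ∧ (∀ n, ‖TR n‖ ≤ 2) ∧ (∀ n, ‖TL n‖ ≤ 2) := by
  have hch0 := fun (χ : DirichletCharacter ℂ (p ^ (2 * l))) (hχ : χ.IsPrimitive) =>
    Two.Mx_chi hp (show 1 ≤ 2 * l by omega) hC₀ h hχ
  have hq : 2 ≤ p ^ (2 * l) := by
    calc 2 ≤ p := hp.two_le
      _ = p ^ 1 := (pow_one p).symm
      _ ≤ p ^ (2 * l) := Nat.pow_le_pow_right hp.pos (by omega)
  choose BR hBR using fun b : (ZMod (p ^ (2 * l)))ˣ => Two.cR_bound (l := l) hch hp hp2 hl hC₀ h (b ^ 2)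
  choose BL hBL using fun b : (ZMod (p ^ (2 * l)))ˣ =>
    Two.cL_bound (p ^ (2 * l)) hch0 ((b ^ 2 : (ZMod (p ^ (2 * l)))ˣ) : ZMod (p ^ (2 * l)))
  have hR2 : ∀ n, ‖TR n‖ ≤ 2 := by
    intro n
    rw [hTR]
    refine (norm_sum_le _ _).trans ?_
    calc ∑ b, ‖(w b : ℂ) * cR (p ^ (2 * l)) ((b ^ 2 : (ZMod (p ^ (2 * l)))ˣ) : ZMod (p ^ (2 * l))) n‖
        ≤ ∑ b, w b * 2 := by
          refine Finset.sum_le_sum fun b _ => ?_
          rw [norm_mul, Complex.norm_real, Real.norm_of_nonneg (hw0 b)]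
          exact mul_le_mul_of_nonneg_left ((norm_cR_le hch hp hp2 hl (b ^ 2) n).trans (by norm_num)) (hw0 b)
      _ = 2 := by rw [← Finset.sum_mul, hw1, one_mul]
  have hL2 : ∀ n, ‖TL n‖ ≤ 2 := by
    intro n
    rw [hTL]
    refine (norm_sum_le _ _).trans ?_
    calc ∑ b, ‖(w b : ℂ) * cL (p ^ (2 * l)) ((b ^ 2 : (ZMod (p ^ (2 * l)))ˣ) : ZMod (p ^ (2 * l))) n‖
        ≤ ∑ b, w b * 2 := by
          refine Finset.sum_le_sum fun b _ => ?_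
          rw [norm_mul, Complex.norm_real, Real.norm_of_nonneg (hw0 b)]
          exact mul_le_mul_of_nonneg_left (Two.norm_cL_le hch hkl hp hp2 hl (b ^ 2) n) (hw0 b)
      _ = 2 := by rw [← Finset.sum_mul, hw1, one_mul]
  refine ⟨?_, hR2, hL2⟩
  have hMR : ∀ v, 1 ≤ v → ‖Mx TR v‖ ≤ (∑ b, w b * BR b) * Real.sqrt v := by
    intro v hv
    rw [hTR, Mx_sum univ (fun b => (w b : ℂ))
      (fun b n => cR (p ^ (2 * l)) ((b ^ 2 : (ZMod (p ^ (2 * l)))ˣ) : ZMod (p ^ (2 * l))) n), Finset.sum_mul]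
    refine (norm_sum_le _ _).trans (Finset.sum_le_sum fun b _ => ?_)
    rw [norm_mul, Complex.norm_real, Real.norm_of_nonneg (hw0 b), mul_assoc]
    exact mul_le_mul_of_nonneg_left (hBR b v hv) (hw0 b)
  have hML : ∀ v, 1 ≤ v → ‖Mx TL v‖ ≤ (∑ b, w b * BL b) * Real.sqrt v := by
    intro v hv
    rw [hTL, Mx_sum univ (fun b => (w b : ℂ))
      (fun b n => cL (p ^ (2 * l)) ((b ^ 2 : (ZMod (p ^ (2 * l)))ˣ) : ZMod (p ^ (2 * l))) n), Finset.sum_mul]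
    refine (norm_sum_le _ _).trans (Finset.sum_le_sum fun b _ => ?_)
    rw [norm_mul, Complex.norm_real, Real.norm_of_nonneg (hw0 b), mul_assoc]
    exact mul_le_mul_of_nonneg_left (hBL b v hv) (hw0 b)
  have hA : ∀ u, ‖aF lam (Mx TR) u - aF lam (Mx TL) (-u)‖ ≤ 2 * C * Real.exp (-lam / 2) * Kth := by
    intro u
    have h1 := aF_sum hlap univ (fun b => (w b : ℂ))
      (fun b n => cR (p ^ (2 * l)) ((b ^ 2 : (ZMod (p ^ (2 * l)))ˣ) : ZMod (p ^ (2 * l))) n) lam BR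
      (fun b _ v hv => hBR b v hv) u
    have h2 := aF_sum hlap univ (fun b => (w b : ℂ))
      (fun b n => cL (p ^ (2 * l)) ((b ^ 2 : (ZMod (p ^ (2 * l)))ˣ) : ZMod (p ^ (2 * l))) n) lam BL
      (fun b _ v hv => hBL b v hv) (-u)
    rw [hTR, hTL, h1, h2, ← Finset.sum_sub_distrib]
    refine (norm_sum_le _ _).trans ?_
    calc ∑ b, ‖(w b : ℂ) * aF lam (Mx (cR (p ^ (2 * l)) ((b ^ 2 : (ZMod (p ^ (2 * l)))ˣ) : ZMod (p ^ (2 * l))))) u -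
          (w b : ℂ) * aF lam (Mx (cL (p ^ (2 * l)) ((b ^ 2 : (ZMod (p ^ (2 * l)))ˣ) : ZMod (p ^ (2 * l))))) (-u)‖
        ≤ ∑ b, w b * (2 * C * Real.exp (-lam / 2) * Kth) := by
          refine Finset.sum_le_sum fun b _ => ?_
          rw [← mul_sub, norm_mul, Complex.norm_real, Real.norm_of_nonneg (hw0 b)]
          by_cases hb : w b = 0
          · rw [hb, zero_mul, zero_mul]
          refine mul_le_mul_of_nonneg_left ?_ (hw0 b)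
          rw [hlam]
          exact Two.inequality_two (p ^ (2 * l)) htrig hsup hlap hlim hpair hq hch0 _
            ⟨BR b, hBR b⟩ (hloc b hb) u
      _ = _ := by rw [← Finset.sum_mul, hw1, one_mul]
  have hD := norm_D_le (fun t => aF lam (Mx TR) t - aF lam (Mx TL) (-t)) _ hA (-U)
  rw [D_sub (aF lam (Mx TR)) (fun t => aF lam (Mx TL) (-t))] at hD
  rw [(hser lam _ TR hR2 hMR (-U)).1, (hser lam _ TL hL2 hML (-U)).2] at hD
  rw [neg_neg, sub_neg_eq_add, ← sub_eq_add_neg] at hD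
  exact hD


/-- two nearby left hand sides -/
theorem series_diff (hvb : S_VB) (Z e : ℝ) (hZ : 0 < Z) (T T' : ℕ → ℂ) (hT : ∀ n, ‖T n‖ ≤ 2)
    (hT' : ∀ n, ‖T' n‖ ≤ 2) (he : ∀ n : ℕ, 1 ≤ n → ‖mu n * T n - mu n * T' n‖ ≤ e) :
    ‖∑' n : ℕ, mu (n + 1) * T (n + 1) * (VL ((n + 1 : ℕ) * (1 / Z)) : ℝ) -
      ∑' n : ℕ, mu (n + 1) * T' (n + 1) * (VL ((n + 1 : ℕ) * (1 / Z)) : ℝ)‖ ≤ 6 * e * Z ^ 3 := by
  have he0 : 0 ≤ e := (norm_nonneg _).trans (he 1 le_rfl)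
  have hV : ∀ n : ℕ, |VL (((n + 1 : ℕ) : ℝ) * (1 / Z))| ≤ 3 * Z ^ 3 * (1 / ((n : ℝ) + 1) ^ 3) := by
    intro n
    have h1 := (hvb.1 (((n + 1 : ℕ) : ℝ) * (1 / Z)) (by positivity)).2
    refine h1.trans (le_of_eq ?_)
    push_cast
    field_simp
  have hs : ∀ A : ℕ → ℂ, (∀ n, ‖A n‖ ≤ 2) →
      Summable (fun n : ℕ => mu (n + 1) * A (n + 1) * ((VL ((n + 1 : ℕ) * (1 / Z)) : ℝ) : ℂ)) := by
    intro A hA
    refine Summable.of_norm_bounded (cube_summable0.mul_left (6 * Z ^ 3)) fun n => ?_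
    rw [norm_mul, norm_mul, Complex.norm_real, Real.norm_eq_abs]
    calc ‖mu (n + 1)‖ * ‖A (n + 1)‖ * |VL (((n + 1 : ℕ) : ℝ) * (1 / Z))|
        ≤ 1 * 2 * (3 * Z ^ 3 * (1 / ((n : ℝ) + 1) ^ 3)) := by
          gcongr
          · exact norm_mu_le _
          · exact hA _
          · exact hV n
      _ = _ := by ring
  rw [← (hs T hT).tsum_sub (hs T' hT')]
  have hbound : ∀ n : ℕ, ‖mu (n + 1) * T (n + 1) * ((VL ((n + 1 : ℕ) * (1 / Z)) : ℝ) : ℂ) -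
      mu (n + 1) * T' (n + 1) * ((VL ((n + 1 : ℕ) * (1 / Z)) : ℝ) : ℂ)‖ ≤
      3 * e * Z ^ 3 * (1 / ((n : ℝ) + 1) ^ 3) := by
    intro n
    rw [← sub_mul, norm_mul, Complex.norm_real, Real.norm_eq_abs]
    calc ‖mu (n + 1) * T (n + 1) - mu (n + 1) * T' (n + 1)‖ * |VL (((n + 1 : ℕ) : ℝ) * (1 / Z))|
        ≤ e * (3 * Z ^ 3 * (1 / ((n : ℝ) + 1) ^ 3)) := by
          gcongr
          · exact he (n + 1) (by omega)
          · exact hV n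
      _ = _ := by ring
  refine (tsum_of_norm_bounded (cube_summable0.mul_left (3 * e * Z ^ 3)).hasSum hbound).trans ?_
  rw [tsum_mul_left]
  have h2 := cube_tsum0
  calc 3 * e * Z ^ 3 * ∑' n : ℕ, 1 / ((n : ℝ) + 1) ^ 3 ≤ 3 * e * Z ^ 3 * 2 := by gcongr
    _ = 6 * e * Z ^ 3 := by ring

end Pool.Agent.T9h54.MX
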