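import Pool.Agent.T9h54.MX.Loc

/-!
# Localised Riesz products: the weights
-/

set_option autoImplicit false

open Filter Topology Finset

namespace Pool.Agent.T9h54.MX

open Pool.Agent.Y821.ME

theorem norm_nu (j : ℤ) : ‖nu j‖ ≤ 1 := by
  unfold nu
  rw [Complex.norm_intCast]
  have := ArithmeticFunction.abs_moebius_le_one (n := j.natAbs)
  exact_mod_cast this

theorem abs_tg (S : Finset ℤ) (g : ℤ) : |tg S g| ≤ 1 / 2 := by
  unfold tg
  split_ifs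
  · rw [abs_div]
    have h : |((ArithmeticFunction.moebius g.natAbs : ℤ) : ℝ)| ≤ 1 := by
      exact_mod_cast ArithmeticFunction.abs_moebius_le_one (n := g.natAbs)
    rw [abs_of_pos (by norm_num : (0 : ℝ) < 2)]
    linarith
  · rw [abs_zero]; norm_num

theorem card_units_ge (p l : ℕ) [Fact p.Prime] (hl : 1 ≤ l) :
    (p : ℝ) ^ (2 * l) / 2 ≤ (Fintype.card (ZMod (p ^ (2 * l)))ˣ : ℝ) := by
  have hp := (Fact.out : p.Prime)
  rw [ZMod.card_units_eq_totient, Nat.totient_prime_pow hp (by omega : 0 < 2 * l)]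
  have h2 : (2 : ℝ) ≤ p := by exact_mod_cast hp.two_le
  have h3 : (p : ℝ) ^ (2 * l) = (p : ℝ) ^ (2 * l - 1) * p := by
    rw [← pow_succ]
    congr 1
    omega
  rw [h3]
  push_cast [Nat.cast_sub hp.one_lt.le]
  have h4 : (0 : ℝ) ≤ (p : ℝ) ^ (2 * l - 1) := by positivity
  nlinarith

/-- the two approximate identities for the localised weights -/
theorem approx (p l : ℕ) [Fact p.Prime] (hl : 1 ≤ l) (R : ℤ → ZMod (p ^ (2 * l))) (S : Finset ℤ)
    (w : (ZMod (p ^ (2 * l)))ˣ → ℝ)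
    (hw : ∀ b, (w b : ℂ) = (Fintype.card (ZMod (p ^ (2 * l)))ˣ : ℂ)⁻¹ *
      ∏ j ∈ S, RZ2.fac (p ^ (2 * l)) R nu (b : ZMod (p ^ (2 * l))) j) (K : ℕ) (x₀ : ℝ)
    (x : ZMod (p ^ (2 * l))) :
    |∑ b, w b * Wt (p ^ (2 * l)) K x₀ b * (ee (p ^ (2 * l)) (x * b)).re -
      (Nat.centralBinom K : ℝ) / 4 ^ K * ∑ b, w b * (ee (p ^ (2 * l)) (x * b)).re| ≤
      2 ^ S.card * (4 * K) / (p : ℝ) ^ l := by
  have hp := (Fact.out : p.Prime)
  have hq : p ^ l * p ^ l = p ^ (2 * l) := by rw [← pow_add, ← two_mul]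
  have h1 := loc_sum (p ^ (2 * l)) (p ^ l) hq R nu norm_nu S K x₀ x
  set φ : ℂ := (Fintype.card (ZMod (p ^ (2 * l)))ˣ : ℂ) with hφ
  have hc := card_units_ge p l hl
  have hp0 : (0 : ℝ) < p := by exact_mod_cast hp.pos
  have hφpos : (0 : ℝ) < (Fintype.card (ZMod (p ^ (2 * l)))ˣ : ℝ) := by
    have : (0 : ℝ) < (p : ℝ) ^ (2 * l) / 2 := by positivity
    linarith
  have h2 : ((∑ b, w b * Wt (p ^ (2 * l)) K x₀ b * (ee (p ^ (2 * l)) (x * b)).re -
      (Nat.centralBinom K : ℝ) / 4 ^ K * ∑ b, w b * (ee (p ^ (2 * l)) (x * b)).re : ℝ)) =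
      (φ⁻¹ * (∑ b : (ZMod (p ^ (2 * l)))ˣ, (∏ j ∈ S, RZ2.fac (p ^ (2 * l)) R nu (b : ZMod (p ^ (2 * l))) j) *
        ((Wt (p ^ (2 * l)) K x₀ b : ℂ) * ee (p ^ (2 * l)) (x * b)) -
      ((Nat.centralBinom K : ℕ) : ℂ) / 4 ^ K *
        ∑ b : (ZMod (p ^ (2 * l)))ˣ, (∏ j ∈ S, RZ2.fac (p ^ (2 * l)) R nu (b : ZMod (p ^ (2 * l))) j) *
          ee (p ^ (2 * l)) (x * b))).re := by
    have h3 : φ⁻¹ * (∑ b : (ZMod (p ^ (2 * l)))ˣ, (∏ j ∈ S, RZ2.fac (p ^ (2 * l)) R nu (b : ZMod (p ^ (2 * l))) j) *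
        ((Wt (p ^ (2 * l)) K x₀ b : ℂ) * ee (p ^ (2 * l)) (x * b)) -
      ((Nat.centralBinom K : ℕ) : ℂ) / 4 ^ K *
        ∑ b : (ZMod (p ^ (2 * l)))ˣ, (∏ j ∈ S, RZ2.fac (p ^ (2 * l)) R nu (b : ZMod (p ^ (2 * l))) j) *
          ee (p ^ (2 * l)) (x * b)) =
        ∑ b, ((w b * Wt (p ^ (2 * l)) K x₀ b : ℝ) : ℂ) * ee (p ^ (2 * l)) (x * b) -
        (((Nat.centralBinom K : ℝ) / 4 ^ K : ℝ) : ℂ) * ∑ b, (w b : ℂ) * ee (p ^ (2 * l)) (x * b) := by
      rw [mul_sub, Finset.mul_sum, Finset.mul_sum, Finset.mul_sum, Finset.mul_sum]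
      congr 1
      · refine Finset.sum_congr rfl fun b _ => ?_
        push_cast
        rw [hw b]
        ring
      · refine Finset.sum_congr rfl fun b _ => ?_
        push_cast
        rw [hw b]
        ring
    rw [h3, Complex.sub_re, Complex.re_sum, Complex.re_ofReal_mul, Complex.re_sum]
    simp only [Complex.re_ofReal_mul]
  rw [h2]
  refine (Complex.abs_re_le_norm _).trans ?_
  rw [norm_mul, norm_inv, hφ, Complex.norm_natCast]
  refine (mul_le_mul_of_nonneg_left h1 (by positivity)).trans ?_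
  push_cast
  rw [inv_mul_eq_div, div_le_div_iff₀ hφpos (by positivity)]
  have h4 : (p : ℝ) ^ (2 * l) = (p : ℝ) ^ l * (p : ℝ) ^ l := by rw [← pow_add, ← two_mul]
  have h5 : (0 : ℝ) ≤ 2 ^ S.card * (4 * K) := by positivity
  calc 2 ^ S.card * (2 * (K : ℝ) * (p : ℝ) ^ l) * (p : ℝ) ^ l
      = 2 ^ S.card * (4 * K) * ((p : ℝ) ^ (2 * l) / 2) := by rw [h4]; ring
    _ ≤ 2 ^ S.card * (4 * K) * (Fintype.card (ZMod (p ^ (2 * l)))ˣ : ℝ) := mul_le_mul_of_nonneg_left hc h5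

/-- the weights are at most `2 ^ (#S) / φ` -/
theorem w_le (p l : ℕ) [Fact p.Prime] (R : ℤ → ZMod (p ^ (2 * l))) (S : Finset ℤ)
    (w : (ZMod (p ^ (2 * l)))ˣ → ℝ)
    (hw : ∀ b, (w b : ℂ) = (Fintype.card (ZMod (p ^ (2 * l)))ˣ : ℂ)⁻¹ *
      ∏ j ∈ S, RZ2.fac (p ^ (2 * l)) R nu (b : ZMod (p ^ (2 * l))) j) (b : (ZMod (p ^ (2 * l)))ˣ) :
    w b ≤ 2 ^ S.card / (Fintype.card (ZMod (p ^ (2 * l)))ˣ : ℝ) := by
  have h1 : ‖(w b : ℂ)‖ ≤ 2 ^ S.card / (Fintype.card (ZMod (p ^ (2 * l)))ˣ : ℝ) := by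
    rw [hw b, norm_mul, norm_inv, Complex.norm_natCast, norm_prod, inv_mul_eq_div]
    refine div_le_div_of_nonneg_right ?_ (Nat.cast_nonneg _)
    calc ∏ j ∈ S, ‖RZ2.fac (p ^ (2 * l)) R nu (b : ZMod (p ^ (2 * l))) j‖ ≤ ∏ j ∈ S, (2 : ℝ) := by
          refine Finset.prod_le_prod (fun _ _ => norm_nonneg _) fun j _ => ?_
          unfold RZ2.fac
          refine (norm_add_le _ _).trans ?_
          rw [norm_one, norm_mul, norm_div, Complex.norm_ofNat]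
          have h2 := norm_nu j
          have h3 : ‖ee (p ^ (2 * l)) (2 * (b : ZMod (p ^ (2 * l))) * R j) +
              ee (p ^ (2 * l)) (-(2 * (b : ZMod (p ^ (2 * l))) * R j))‖ ≤ 2 := by
            refine (norm_add_le _ _).trans ?_
            rw [norm_ee, norm_ee]; norm_num
          have h4 : ‖nu j‖ / 2 * ‖ee (p ^ (2 * l)) (2 * (b : ZMod (p ^ (2 * l))) * R j) +
              ee (p ^ (2 * l)) (-(2 * (b : ZMod (p ^ (2 * l))) * R j))‖ ≤ 1 / 2 * 2 :=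
            mul_le_mul (by linarith) h3 (norm_nonneg _) (by norm_num)
          linarith
      _ = 2 ^ S.card := by rw [Finset.prod_const]
  rw [Complex.norm_real] at h1
  exact (le_abs_self _).trans h1

/-- choice of the exponent -/
theorem exists_K (δ ε : ℝ) (hδ : 0 < δ) (hδ2 : δ ≤ 1 / 2) (hε : 0 < ε) : ∃ K : ℕ, 1 ≤ K ∧
    (1 - 4 * δ ^ 2) ^ K * (2 * K) ≤ ε := by
  have h1 : Tendsto (fun n : ℕ => (n : ℝ) * (1 - 4 * δ ^ 2) ^ n) atTop (𝓝 0) :=
    tendsto_self_mul_const_pow_of_lt_one (by nlinarith) (by nlinarith [sq_pos_of_pos hδ])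
  have h2 := h1.eventually (gt_mem_nhds (half_pos hε))
  obtain ⟨K, hK, hK1⟩ := (h2.and (eventually_ge_atTop 1)).exists
  refine ⟨K, hK1, ?_⟩
  have : (1 - 4 * δ ^ 2) ^ K * (2 * K) = 2 * ((K : ℝ) * (1 - 4 * δ ^ 2) ^ K) := by ring
  rw [this]
  linarith

theorem exists_l (p : ℕ) [Fact p.Prime] (A ε : ℝ) (hε : 0 < ε) : ∃ l₂ : ℕ, ∀ l, l₂ ≤ l → A / (p : ℝ) ^ l ≤ ε := by
  have hp : (1 : ℝ) < p := by exact_mod_cast (Fact.out : p.Prime).one_lt
  have h1 : Tendsto (fun l : ℕ => (p : ℝ) ^ l) atTop atTop := tendsto_pow_atTop_atTop_of_one_lt hp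
  have h2 : Tendsto (fun l : ℕ => A / (p : ℝ) ^ l) atTop (𝓝 0) := tendsto_const_nhds.div_atTop h1
  obtain ⟨l₂, hl₂⟩ := eventually_atTop.mp (h2.eventually (gt_mem_nhds hε))
  exact ⟨l₂, fun l hl => (hl₂ l hl).le⟩

/-- the localised weights -/
theorem weights (Y p : ℕ) [Fact p.Prime] (hp2 : p ≠ 2) (S : Finset ℤ) (hS : S ⊆ Gs Y p) (x₀ δ ε : ℝ)
    (hδ : 0 < δ) (hδ2 : δ ≤ 1 / 2) (hε : 0 < ε) :
    ∃ κ : ℝ, 0 < κ ∧ ∃ l₀ : ℕ, 1 ≤ l₀ ∧ ∀ l : ℕ, l₀ ≤ l → ∃ r : ℤ → (ZMod (p ^ (2 * l)))ˣ,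
    (∀ g ∈ Gs Y p, (g : ZMod (p ^ (2 * l))) * (r g : ZMod (p ^ (2 * l))) ^ 2 = 1) ∧
    ∀ E : Finset (ZMod (p ^ (2 * l)))ˣ, (E.card : ℝ) ≤ κ * (p : ℝ) ^ (2 * l) →
    ∃ w : (ZMod (p ^ (2 * l)))ˣ → ℝ, (∀ b, 0 ≤ w b) ∧ ∑ b, w b = 1 ∧
      (∀ b, w b ≠ 0 → b ∉ E ∧ Near δ (yb (p ^ (2 * l)) x₀ b)) ∧
      ∀ g ∈ Gs Y p, |∑ b, w b * (ee (p ^ (2 * l)) (2 * (b : ZMod (p ^ (2 * l))) * r g)).re - tg S g| ≤ ε := by
  classical
  obtain ⟨l₁, hl₁, hall⟩ := rz2x Y p hp2 S hS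
  set ε' : ℝ := min ε 1 with hε'
  have hε'0 : 0 < ε' := lt_min hε one_pos
  have hε'1 : ε' ≤ 1 := min_le_right _ _
  obtain ⟨K, hK1, hK⟩ := exists_K δ (ε' / 12) hδ hδ2 (by positivity)
  set c : ℝ := (Nat.centralBinom K : ℝ) / 4 ^ K with hc
  have hKR : (1 : ℝ) ≤ K := by exact_mod_cast hK1
  have hc0 : 0 < c := by
    rw [hc]
    have : (0 : ℝ) < Nat.centralBinom K := by exact_mod_cast Nat.centralBinom_pos K
    positivity
  have hcK : 1 ≤ 2 * K * c := by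
    have h1 := Nat.four_pow_le_two_mul_self_mul_centralBinom K (by omega)
    have h2 : ((4 ^ K : ℕ) : ℝ) ≤ ((2 * K * Nat.centralBinom K : ℕ) : ℝ) := by exact_mod_cast h1
    push_cast at h2
    rw [hc, ← mul_div_assoc, le_div_iff₀ (by positivity), one_mul]
    exact h2
  have hρ0 : 0 ≤ 1 - 4 * δ ^ 2 := by nlinarith
  have hρK : (1 - 4 * δ ^ 2) ^ K ≤ ε' * c / 12 := by
    have h1 : (1 - 4 * δ ^ 2) ^ K * 1 ≤ (1 - 4 * δ ^ 2) ^ K * (2 * K * c) :=
      mul_le_mul_of_nonneg_left hcK (pow_nonneg hρ0 K)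
    have h2 : (1 - 4 * δ ^ 2) ^ K * (2 * K * c) = ((1 - 4 * δ ^ 2) ^ K * (2 * K)) * c := by ring
    have h3 := mul_le_mul_of_nonneg_right hK hc0.le
    linarith
  set s : ℝ := 2 ^ S.card with hs
  have hs0 : 0 < s := by positivity
  obtain ⟨l₂, hl₂⟩ := exists_l p (s * (4 * K)) (ε' * c / 12) (by positivity)
  refine ⟨ε' * c / (24 * s), by positivity, max l₁ l₂, hl₁.trans (le_max_left _ _), fun l hl => ?_⟩
  have hl1 : 1 ≤ l := hl₁.trans ((le_max_left _ _).trans hl)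
  obtain ⟨r, hr, w, hw0, hw1, hwg, hwf⟩ := hall l ((le_max_left _ _).trans hl)
  refine ⟨r, hr, fun E hE => ?_⟩
  have herr := hl₂ l ((le_max_right _ _).trans hl)
  set φ : ℝ := (Fintype.card (ZMod (p ^ (2 * l)))ˣ : ℝ) with hφ
  have hφge := card_units_ge p l hl1
  have hp0 : (0 : ℝ) < p := by exact_mod_cast (Fact.out : p.Prime).pos
  have hpq : (0 : ℝ) < (p : ℝ) ^ (2 * l) := by positivity
  have hφ0 : 0 < φ := by
    have : (0 : ℝ) < (p : ℝ) ^ (2 * l) / 2 := by positivity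
    linarith
  have hwle := w_le p l _ S w hwf
  have happ := approx p l hl1 _ S w hwf K x₀
  set u : (ZMod (p ^ (2 * l)))ˣ → ℝ := fun b => w b * Wt (p ^ (2 * l)) K x₀ b with hu
  have hW0 : ∀ b : (ZMod (p ^ (2 * l)))ˣ, 0 ≤ Wt (p ^ (2 * l)) K x₀ b := by
    intro b
    unfold Wt
    rw [pow_mul]
    positivity
  have hW1 : ∀ b : (ZMod (p ^ (2 * l)))ˣ, Wt (p ^ (2 * l)) K x₀ b ≤ 1 := by
    intro b
    unfold Wt
    rw [pow_mul]
    exact pow_le_one₀ (sq_nonneg _) (Real.cos_sq_le_one _)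
  have hu0 : ∀ b, 0 ≤ u b := fun b => mul_nonneg (hw0 b) (hW0 b)
  set bad : (ZMod (p ^ (2 * l)))ˣ → Prop := fun b => b ∈ E ∨ ¬ Near δ (yb (p ^ (2 * l)) x₀ b) with hbad
  set u' : (ZMod (p ^ (2 * l)))ˣ → ℝ := fun b => if bad b then 0 else u b with hu'
  have hu'0 : ∀ b, 0 ≤ u' b := by
    intro b
    rw [hu']
    simp only
    split_ifs
    · exact le_rfl
    · exact hu0 b
  have hdiff : ∀ b, u b - u' b ≤ (if b ∈ E then s / φ else 0) + w b * (1 - 4 * δ ^ 2) ^ K := by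
    intro b
    have hwρ : 0 ≤ w b * (1 - 4 * δ ^ 2) ^ K := mul_nonneg (hw0 b) (pow_nonneg hρ0 K)
    have hsφ : 0 ≤ s / φ := by positivity
    rw [hu']
    simp only
    by_cases hb : bad b
    · rw [if_pos hb, sub_zero]
      rcases hb with h | h
      · rw [if_pos h]
        have h1 : u b ≤ w b := by
          calc w b * Wt (p ^ (2 * l)) K x₀ b ≤ w b * 1 := mul_le_mul_of_nonneg_left (hW1 b) (hw0 b)
            _ = w b := mul_one _
        have h2 := hwle b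
        linarith
      · have h1 : Wt (p ^ (2 * l)) K x₀ b ≤ (1 - 4 * δ ^ 2) ^ K := by
          unfold Wt
          rw [pow_mul]
          exact pow_le_pow_left₀ (sq_nonneg _) (cos_sq_le hδ h) K
        have h2 : u b ≤ w b * (1 - 4 * δ ^ 2) ^ K := mul_le_mul_of_nonneg_left h1 (hw0 b)
        split_ifs
        · linarith
        · linarith
    · rw [if_neg hb, sub_self]
      split_ifs
      · linarith
      · linarith
  have hdiff0 : ∀ b, 0 ≤ u b - u' b := by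
    intro b
    rw [hu']
    simp only
    split_ifs
    · rw [sub_zero]; exact hu0 b
    · rw [sub_self]
  have hmass : ∑ b, (u b - u' b) ≤ ε' * c / 6 := by
    calc ∑ b, (u b - u' b) ≤ ∑ b, ((if b ∈ E then s / φ else 0) + w b * (1 - 4 * δ ^ 2) ^ K) :=
          Finset.sum_le_sum fun b _ => hdiff b
      _ = E.card * (s / φ) + (1 - 4 * δ ^ 2) ^ K := by
          rw [Finset.sum_add_distrib, ← Finset.sum_mul, hw1, one_mul, Finset.sum_ite_mem, Finset.univ_inter,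
            Finset.sum_const, nsmul_eq_mul]
      _ ≤ ε' * c / 12 + ε' * c / 12 := by
          refine add_le_add ?_ hρK
          have h1 : (E.card : ℝ) * (s / φ) ≤ (ε' * c / (24 * s) * (p : ℝ) ^ (2 * l)) * (s / φ) :=
            mul_le_mul_of_nonneg_right hE (by positivity)
          refine h1.trans ?_
          have h2 : (ε' * c / (24 * s) * (p : ℝ) ^ (2 * l)) * (s / φ) = ε' * c / 12 * (((p : ℝ) ^ (2 * l) / 2) / φ) := by
            field_simp
            ring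
          rw [h2]
          have h3 : ((p : ℝ) ^ (2 * l) / 2) / φ ≤ 1 := by
            rw [div_le_one hφ0]; exact hφge
          have h4 : 0 ≤ ε' * c / 12 := by positivity
          nlinarith
      _ = ε' * c / 6 := by ring
  have happrox : ∀ (x : ZMod (p ^ (2 * l))) (t : ℝ), ∑ b, w b * (ee (p ^ (2 * l)) (x * b)).re = t →
      |∑ b, u' b * (ee (p ^ (2 * l)) (x * b)).re - c * t| ≤ ε' * c / 4 := by
    intro x t ht
    have h1 := happ x
    rw [ht] at h1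
    have h2 : |∑ b, u' b * (ee (p ^ (2 * l)) (x * b)).re - ∑ b, u b * (ee (p ^ (2 * l)) (x * b)).re| ≤ ε' * c / 6 := by
      rw [← Finset.sum_sub_distrib]
      refine (Finset.abs_sum_le_sum_abs _ _).trans (le_trans (Finset.sum_le_sum fun b _ => ?_) hmass)
      rw [← sub_mul, abs_mul, abs_sub_comm, abs_of_nonneg (hdiff0 b)]
      have h3 : |(ee (p ^ (2 * l)) (x * (b : ZMod (p ^ (2 * l))))).re| ≤ 1 :=
        (Complex.abs_re_le_norm _).trans (by rw [norm_ee])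
      calc (u b - u' b) * |(ee (p ^ (2 * l)) (x * (b : ZMod (p ^ (2 * l))))).re| ≤ (u b - u' b) * 1 :=
            mul_le_mul_of_nonneg_left h3 (hdiff0 b)
        _ = u b - u' b := mul_one _
    have h4 := abs_sub_le (∑ b, u' b * (ee (p ^ (2 * l)) (x * b)).re) (∑ b, u b * (ee (p ^ (2 * l)) (x * b)).re) (c * t)
    have h5 : |∑ b, u b * (ee (p ^ (2 * l)) (x * b)).re - c * t| ≤ ε' * c / 12 := h1.trans herr
    linarith
  have hZ : |∑ b, u' b - c| ≤ ε' * c / 4 := by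
    have h1 := happrox 0 1 (by
      rw [← hw1]
      refine Finset.sum_congr rfl fun b _ => ?_
      simp [ee])
    have h2 : ∑ b : (ZMod (p ^ (2 * l)))ˣ, u' b * (ee (p ^ (2 * l)) (0 * (b : ZMod (p ^ (2 * l))))).re = ∑ b, u' b := by
      refine Finset.sum_congr rfl fun b _ => ?_
      simp [ee]
    rw [h2, mul_one] at h1
    exact h1
  set Z : ℝ := ∑ b, u' b with hZdef
  have hZc : 3 / 4 * c ≤ Z := by
    have := (abs_le.mp hZ).1
    nlinarith
  have hZ0 : 0 < Z := by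
    have : 0 < 3 / 4 * c := by positivity
    linarith
  refine ⟨fun b => u' b / Z, fun b => div_nonneg (hu'0 b) hZ0.le, ?_, ?_, ?_⟩
  · rw [← Finset.sum_div, ← hZdef, div_self hZ0.ne']
  · intro b hb
    have h1 : u' b ≠ 0 := by
      intro h
      apply hb
      simp only [h, zero_div]
    have h2 : ¬ bad b := by
      intro h
      apply h1
      rw [hu']
      simp only
      rw [if_pos h]
    rw [hbad] at h2
    simp only [not_or, not_not] at h2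
    exact h2
  · intro g hg
    have h1 := hwg g hg
    have h2 : ∀ b : (ZMod (p ^ (2 * l)))ˣ, (2 * (b : ZMod (p ^ (2 * l))) * r g : ZMod (p ^ (2 * l))) =
        2 * (r g : ZMod (p ^ (2 * l))) * b := fun b => by ring
    simp only [h2] at h1 ⊢
    have h3 := happrox (2 * (r g : ZMod (p ^ (2 * l)))) (tg S g) h1
    have h4 : ∑ b, u' b / Z * (ee (p ^ (2 * l)) (2 * (r g : ZMod (p ^ (2 * l))) * b)).re - tg S g =
        (∑ b, u' b * (ee (p ^ (2 * l)) (2 * (r g : ZMod (p ^ (2 * l))) * b)).re - tg S g * Z) / Z := by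
      rw [sub_div, mul_div_cancel_right₀ _ hZ0.ne', Finset.sum_div]
      congr 1
      refine Finset.sum_congr rfl fun b _ => ?_
      ring
    rw [h4, abs_div, abs_of_pos hZ0, div_le_iff₀ hZ0]
    have h5 : |∑ b, u' b * (ee (p ^ (2 * l)) (2 * (r g : ZMod (p ^ (2 * l))) * b)).re - tg S g * Z| ≤
        ε' * c / 4 + 1 / 2 * (ε' * c / 4) := by
      have h6 := abs_sub_le (∑ b, u' b * (ee (p ^ (2 * l)) (2 * (r g : ZMod (p ^ (2 * l))) * b)).re) (c * tg S g)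
        (tg S g * Z)
      have h7 : |c * tg S g - tg S g * Z| ≤ 1 / 2 * (ε' * c / 4) := by
        have : c * tg S g - tg S g * Z = -(tg S g * (Z - c)) := by ring
        rw [this, abs_neg, abs_mul]
        exact mul_le_mul (abs_tg S g) hZ (abs_nonneg _) (by norm_num)
      linarith
    have h8 : ε' * (3 / 4 * c) ≤ ε * Z := by
      exact mul_le_mul (min_le_left _ _) hZc (by positivity) hε.le
    have h9 : 0 < ε' * c := by positivity
    nlinarith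

end Pool.Agent.T9h54.MX
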